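import Pool.Agent.Lib.MP_0a5adf_nt.TAO.H2.Deep
import Pool.Agent.Lib.MP_0a5adf_nt.H45.DecayDefs

/-!
# TAO+ part (A): polynomial decay
-/

open Finset Filter Topology

namespace Pool.Agent.Lib.MP_0a5adf_nt.TAO.H2

/-- No exit in `0.9 m` steps is exponentially unlikely. -/
theorem noexit (a : ℕ) : ∃ m1 : ℕ, ∀ m ≥ m1, ∀ v : ℕ, 2 ^ v ≤ 9 ^ m →
    (49 / 81 : ℝ) ^ (9 * m / 10) * (8 / 7) ^ v ≤ 1 / (4 * (m : ℝ) ^ a) := by
  set κ : ℝ := (49 / 81) ^ 90 * (8 / 7) ^ 317 with hκ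
  have hκ0 : 0 ≤ κ := by positivity
  have hκ1 : κ < 1 := by
    have e1 : κ = ((49 / 81) ^ 9 * (8 / 7) ^ 31) ^ 10 * (8 / 7) ^ 7 := by
      rw [hκ, mul_pow, ← pow_mul, ← pow_mul, mul_assoc, ← pow_add]
    have e2 : (49 / 81 : ℝ) ^ 9 * (8 / 7) ^ 31 ≤ 7 / 10 := by norm_num
    have e3 : ((49 / 81 : ℝ) ^ 9 * (8 / 7) ^ 31) ^ 10 ≤ (7 / 10) ^ 10 :=
      pow_le_pow_left₀ (by positivity) e2 _
    rw [e1]
    refine (mul_le_mul_of_nonneg_right e3 (by positivity)).trans_lt ?_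
    norm_num
  have hC : (0:ℝ) < 1 / ((81 / 49) ^ 90 * 4 ^ 100) := by positivity
  have h1 := (tendsto_pow_const_mul_const_pow_of_lt_one (100 * a) hκ0 hκ1).eventually
    (gt_mem_nhds hC)
  obtain ⟨m2, hm2⟩ := eventually_atTop.1 h1
  refine ⟨max m2 1, fun m hm v hv => ?_⟩
  have hm1 : 1 ≤ m := (le_max_right _ _).trans hm
  have hmR : (0:ℝ) < m := by exact_mod_cast hm1
  have h2 := hm2 m ((le_max_left _ _).trans hm)
  have hv1 : 100 * v ≤ 317 * m := by
    have h3 : 2 ^ (100 * v) ≤ 2 ^ (317 * m) := by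
      calc 2 ^ (100 * v) = (2 ^ v) ^ 100 := by rw [← pow_mul, mul_comm]
        _ ≤ (9 ^ m) ^ 100 := Nat.pow_le_pow_left hv _
        _ = (9 ^ 100) ^ m := by rw [← pow_mul, ← pow_mul, mul_comm]
        _ ≤ (2 ^ 317) ^ m := Nat.pow_le_pow_left (by
            rw [show (317:ℕ) = 200 + 117 from rfl, pow_add]
            norm_num) _
        _ = 2 ^ (317 * m) := by rw [← pow_mul]
    exact (Nat.pow_le_pow_iff_right (by norm_num)).1 h3
  have hT : 90 * m - 90 ≤ 100 * (9 * m / 10) := by omega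
  set z : ℝ := (49 / 81 : ℝ) ^ (9 * m / 10) * (8 / 7) ^ v with hz
  have hz0 : 0 ≤ z := by positivity
  have hz1 : z ^ 100 ≤ (81 / 49) ^ 90 * κ ^ m := by
    have e1 : z ^ 100 = (49 / 81 : ℝ) ^ (100 * (9 * m / 10)) * (8 / 7) ^ (100 * v) := by
      rw [hz, mul_pow, ← pow_mul, ← pow_mul, mul_comm (9 * m / 10), mul_comm v]
    have e2 : (49 / 81 : ℝ) ^ (100 * (9 * m / 10)) ≤ (49 / 81) ^ (90 * m - 90) :=
      pow_le_pow_of_le_one (by norm_num) (by norm_num) hT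
    have e3 : (8 / 7 : ℝ) ^ (100 * v) ≤ (8 / 7) ^ (317 * m) :=
      pow_le_pow_right₀ (by norm_num) hv1
    have e4 : (49 / 81 : ℝ) ^ (90 * m - 90) = (81 / 49) ^ 90 * (49 / 81) ^ (90 * m) := by
      have : (49 / 81 : ℝ) ^ (90 * m) = (49 / 81) ^ (90 * m - 90) * (49 / 81) ^ 90 := by
        rw [← pow_add]; congr 1; omega
      rw [this, mul_comm _ ((49 / 81 : ℝ) ^ 90), ← mul_assoc, ← mul_pow]
      norm_num
    rw [e1]
    refine (mul_le_mul e2 e3 (by positivity) (by positivity)).trans (le_of_eq ?_)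
    rw [e4, hκ, mul_pow, ← pow_mul, ← pow_mul, mul_assoc]
  have h4 : z ^ 100 ≤ (1 / (4 * (m : ℝ) ^ a)) ^ 100 := by
    refine hz1.trans ?_
    have e5 : (1 / (4 * (m : ℝ) ^ a)) ^ 100 = 1 / (4 ^ 100 * (m:ℝ) ^ (100 * a)) := by
      rw [one_div, inv_pow, mul_pow, ← pow_mul, mul_comm a 100, one_div]
    rw [e5, le_div_iff₀ (by positivity)]
    rw [lt_div_iff₀ (by positivity)] at h2
    have e6 : (81 / 49 : ℝ) ^ 90 * κ ^ m * (4 ^ 100 * (m:ℝ) ^ (100 * a)) =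
        (m:ℝ) ^ (100 * a) * κ ^ m * ((81 / 49) ^ 90 * 4 ^ 100) := by ring
    rw [e6]
    exact h2.le
  exact le_of_pow_le_pow_left₀ (by norm_num) (by positivity) h4

variable {J B : ℕ} {ρ : ℕ → ℕ → ℤ}

/-- The depth is bounded. -/
theorem depth_le (hT : Tab J ρ) {m l v : ℕ} (hm1 : 1 ≤ m) (hm : m ≤ J)
    (hbl : Black J ρ (J - m) (l + 3)) (hv : (2 ^ v : ℤ) ∣ ρ (J - m) (l + 3)) :
    2 ^ v ≤ 9 ^ m := by
  have hne := hT.nz (J - m) (l + 3) (by omega)
  have hdv := hT.dv (J - m) (l + 3) (by omega)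
  have hco : IsCoprime (9 ^ (J - m) : ℤ) (2 ^ v) := by
    refine IsCoprime.pow ?_
    exact ⟨1, -4, by norm_num⟩
  have h1 : (9 ^ (J - m) * 2 ^ v : ℤ) ∣ ρ (J - m) (l + 3) := hco.mul_dvd hdv hv
  have h2 := Int.le_of_dvd (abs_pos.2 hne) ((dvd_abs _ _).2 h1)
  have h3 : 40 * |ρ (J - m) (l + 3)| ≤ 9 ^ J := hbl
  have h4 : (9:ℤ) ^ J = 9 ^ (J - m) * 9 ^ m := by rw [← pow_add]; congr 1; omega
  have h5 : (9:ℤ) ^ (J - m) * 2 ^ v ≤ 9 ^ (J - m) * 9 ^ m := by
    have : (0:ℤ) < 9 ^ (J - m) * 2 ^ v := by positivity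
    rw [← h4]
    linarith
  have h6 : (2:ℤ) ^ v ≤ 9 ^ m := le_of_mul_le_mul_left h5 (by positivity)
  exact_mod_cast h6

theorem decay (a : ℕ) : ∃ C R : ℕ, ∀ (B J : ℕ) (ρ : ℕ → ℕ → ℤ), 3 ≤ B → Tab J ρ →
    ∀ m l : ℕ, 1 ≤ m → m ≤ J → Q J B ρ m l ≤ ((C * B ^ R : ℕ) / (m : ℝ)) ^ a := by
  have hc0 := c0_pos
  have hc01 := c0_lt
  set c1 : ℝ := c0 / 2 with hc1
  have hc10 : 0 < c1 := by rw [hc1]; linarith
  have hc11 : c1 < 1 := by rw [hc1]; linarith
  set c : ℝ := c1 / (a + 1) with hc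
  have ha0 : (0:ℝ) ≤ a := Nat.cast_nonneg a
  have hcpos : 0 < c := by rw [hc]; positivity
  have hcle : c ≤ c1 := by rw [hc]; exact div_le_self hc10.le (by linarith)
  have hc_1 : c < 1 := hcle.trans_lt hc11
  have hac : a * c ≤ c1 := by
    rw [hc, mul_div_assoc', div_le_iff₀ (by positivity)]
    nlinarith
  have hbern : 1 - c1 ≤ (1 - c) ^ a := by
    have h1 := one_add_mul_le_pow (show (-2:ℝ) ≤ -c by linarith) a
    have h2 : 1 + (a:ℝ) * -c = 1 - a * c := by ring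
    rw [h2, ← sub_eq_add_neg] at h1
    linarith
  obtain ⟨R, hR⟩ := exists_pow_lt_of_lt_one (show (0:ℝ) < 1 / (8 * 20 ^ a) by positivity)
    (show 1 - c1 < 1 by linarith)
  obtain ⟨m1, hm1⟩ := noexit a
  set K2 : ℕ := 4 * 20 ^ a with hK2
  set K1 : ℕ := 480 * (R + 1) * K2 * 20 ^ a with hK1
  have h20 : 1 ≤ 20 ^ a := Nat.one_le_pow _ _ (by norm_num)
  have hK21 : 1 ≤ K2 := by omega
  have hK11 : 1 ≤ K1 := Nat.mul_pos (Nat.mul_pos (by omega) hK21) h20
  set C1 : ℕ := 240 * 20 ^ a * (R + 1) * (4 * (5 * K1) ^ R) + 160 * K2 with hC1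
  obtain ⟨C2, hC2⟩ := exists_nat_ge ((C1:ℝ) ^ 2 / c)
  refine ⟨C2 + m1 + 1, 2 * R + 2, ?_⟩
  intro B J ρ hB hT m
  induction m using Nat.strong_induction_on with
  | _ m ih =>
  intro l hm0 hmJ
  have hB1 : 1 ≤ B := by omega
  set m0 : ℕ := (C2 + m1 + 1) * B ^ (2 * R + 2) with hm0def
  have hmR : (0:ℝ) < m := by exact_mod_cast hm0
  have hBp : 1 ≤ B ^ (2 * R + 2) := Nat.one_le_pow _ _ hB1
  have hm01 : C2 + m1 + 1 ≤ m0 := Nat.le_mul_of_pos_right _ hBp
  have hm0R : (1:ℝ) ≤ m0 := by exact_mod_cast (show 1 ≤ m0 by omega)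
  rcases le_or_gt m m0 with hle | hgt
  · refine (Q_le_one m l).trans (one_le_pow₀ ?_)
    rw [one_le_div hmR]
    exact_mod_cast hle
  set Fm : ℝ := ((m0:ℝ) / m) ^ a with hFm
  have hFm0 : 0 < Fm := by positivity
  -- the induction hypothesis for a fraction `κ` of `m`
  have hIH : ∀ κ : ℝ, 0 < κ → ∀ n, n < m → κ * m ≤ n → ∀ l, Q J B ρ n l ≤ Fm / κ ^ a := by
    intro κ hκ n hn hκn l
    have hn0 : (0:ℝ) < n := lt_of_lt_of_le (mul_pos hκ hmR) hκn
    have hn1 : 1 ≤ n := by exact_mod_cast hn0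
    refine (ih n hn l hn1 (by omega)).trans ?_
    rw [hFm, ← div_pow]
    refine pow_le_pow_left₀ (by positivity) ?_ a
    rw [div_div]
    exact div_le_div_of_nonneg_left (by linarith) (by positivity) (by linarith)
  -- sizes
  set X : ℝ := C1 * (B:ℝ) ^ (R + 1) with hX
  have hXm : X ^ 2 ≤ c * m := by
    have e1 : (C1:ℝ) ^ 2 ≤ c * C2 := by
      rw [div_le_iff₀ hcpos] at hC2; linarith
    have e2 : (C2:ℝ) * (B:ℝ) ^ (2 * R + 2) ≤ m := by
      have : C2 * B ^ (2 * R + 2) ≤ m := by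
        refine le_trans ?_ hgt.le
        exact Nat.mul_le_mul_right _ (by omega)
      exact_mod_cast this
    have e3 : X ^ 2 = (C1:ℝ) ^ 2 * (B:ℝ) ^ (2 * R + 2) := by rw [hX]; ring
    rw [e3]
    have e4 : (0:ℝ) ≤ (B:ℝ) ^ (2 * R + 2) := by positivity
    calc (C1:ℝ) ^ 2 * (B:ℝ) ^ (2 * R + 2) ≤ c * C2 * (B:ℝ) ^ (2 * R + 2) :=
          mul_le_mul_of_nonneg_right e1 e4
      _ = c * (C2 * (B:ℝ) ^ (2 * R + 2)) := by ring
      _ ≤ c * m := mul_le_mul_of_nonneg_left e2 hcpos.le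
  set Z : ℝ := B * (rr K1 B R : ℝ) with hZ
  have hBR : (1:ℝ) ≤ B := by exact_mod_cast hB1
  have hrr4 : (4:ℝ) ≤ rr K1 B R := by exact_mod_cast rr_ge hK11 hB1 R
  have hZrr : (rr K1 B R : ℝ) ≤ Z := by rw [hZ]; nlinarith
  have h20R : (1:ℝ) ≤ 20 ^ a := one_le_pow₀ (by norm_num)
  have hRR : (1:ℝ) ≤ (R:ℝ) + 1 := by linarith [(Nat.cast_nonneg R : (0:ℝ) ≤ R)]
  have hXZ : 240 * 20 ^ a * (R + 1) * Z + 160 * K2 ≤ X := by
    have e1 : Z = 4 * (5 * K1) ^ R * (B:ℝ) ^ (R + 1) := by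
      rw [hZ, rr]; push_cast; ring
    have e2 : (160:ℝ) * K2 ≤ 160 * K2 * (B:ℝ) ^ (R + 1) :=
      le_mul_of_one_le_right (by positivity) (one_le_pow₀ hBR)
    rw [hX, hC1, e1]
    push_cast
    linarith
  have hZ0 : 0 ≤ Z := by linarith
  have hK2R : (1:ℝ) ≤ K2 := by exact_mod_cast hK21
  have hZ240 : 240 * Z ≤ 240 * 20 ^ a * (R + 1) * Z := by
    have e1 : (1:ℝ) ≤ 20 ^ a * (R + 1) := one_le_mul_of_one_le_of_one_le h20R hRR
    have e2 : 240 * 20 ^ a * ((R:ℝ) + 1) * Z = 20 ^ a * (R + 1) * (240 * Z) := by ring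
    rw [e2]
    exact le_mul_of_one_le_left (by positivity) e1
  have hX1 : (160:ℝ) ≤ X := by linarith
  have hX2 : X ≤ c * m := by
    refine le_trans ?_ hXm
    rw [sq]
    exact le_mul_of_one_le_left (by linarith) (by linarith)
  have hcm : c * m ≤ m := mul_le_of_le_one_left hmR.le hc_1.le
  set s : ℕ := ⌊c * m⌋₊ with hs
  have hs1 : (s:ℝ) ≤ c * m := Nat.floor_le (by positivity)
  have hs2 : c * m < s + 1 := Nat.lt_floor_add_one _
  by_cases hcase : Black J ρ (J - m) (l + 3) ∧ (2 ^ (s + 1) : ℤ) ∣ ρ (J - m) (l + 3)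
  · -- deep black candidate
    obtain ⟨hbl, hdvs⟩ := hcase
    have hne : ρ (J - m) (l + 3) ≠ 0 := hT.nz _ _ (by omega)
    have hfin : ∃ v, (2 ^ v : ℤ) ∣ ρ (J - m) (l + 3) ∧ ¬ (2 ^ (v + 1) : ℤ) ∣ ρ (J - m) (l + 3) := by
      by_contra hcon
      push Not at hcon
      have h1 : ∀ v, (2 ^ v : ℤ) ∣ ρ (J - m) (l + 3) := by
        intro v
        induction v with
        | zero => simp
        | succ v ih => exact hcon v ih
      have h2 := Int.le_of_dvd (abs_pos.2 hne) ((dvd_abs _ _).2 (h1 (ρ (J - m) (l + 3)).natAbs))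
      have h3 : (ρ (J - m) (l + 3)).natAbs < 2 ^ (ρ (J - m) (l + 3)).natAbs := Nat.lt_two_pow_self
      have h4 : ((ρ (J - m) (l + 3)).natAbs : ℤ) < 2 ^ (ρ (J - m) (l + 3)).natAbs := by
        exact_mod_cast h3
      rw [Int.natCast_natAbs] at h4
      linarith
    obtain ⟨v, hv, hv'⟩ := hfin
    have hvs : s + 1 ≤ v := by
      by_contra hcon
      exact hv' ((pow_dvd_pow 2 (by omega)).trans hdvs)
    have hvR : c * m ≤ v := by
      have : ((s + 1 : ℕ) : ℝ) ≤ v := by exact_mod_cast hvs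
      push_cast at this
      linarith
    have h29 := depth_le hT hm0 hmJ hbl hv
    -- `√(v+1) ≥ X`
    have hsq : X ≤ √((v:ℝ) + 1) := by
      refine Real.le_sqrt_of_sq_le ?_
      linarith
    have hsq0 : 0 < √((v:ℝ) + 1) := by linarith
    have hsqsq : √((v:ℝ) + 1) ^ 2 = v + 1 := Real.sq_sqrt (by positivity)
    set w : ℕ := Nat.sqrt v + 1 with hw
    have hw1 : (v:ℝ) + 1 ≤ (w:ℝ) ^ 2 := by
      have : v + 1 ≤ w ^ 2 := by
        have := Nat.lt_succ_sqrt v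
        rw [hw, sq]
        exact this
      exact_mod_cast this
    have hw2 : (w:ℝ) ≤ 2 * √((v:ℝ) + 1) := by
      have e1 : (Nat.sqrt v : ℝ) ≤ √((v:ℝ) + 1) := by
        refine Real.le_sqrt_of_sq_le ?_
        have : Nat.sqrt v ^ 2 ≤ v := Nat.sqrt_le' v
        have h5 : ((Nat.sqrt v : ℝ)) ^ 2 ≤ v := by exact_mod_cast this
        linarith
      rw [hw]
      push_cast
      linarith
    set W : ℕ := K2 * w with hWd
    have hW1 : 1 ≤ W := Nat.mul_pos hK21 (by omega)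
    have hWR : (W:ℝ) = K2 * w := by rw [hWd]; push_cast; ring
    have e2 : (W:ℝ) ≤ 2 * K2 * √((v:ℝ) + 1) := by
      rw [hWR]
      refine (mul_le_mul_of_nonneg_left hw2 (by positivity)).trans (le_of_eq ?_)
      ring
    have hwin : 20 * (W + rr K1 B R + 1) ≤ v := by
      have e1 : (20:ℝ) * (W + rr K1 B R + 1) ≤ v := by
        have hsqm : √((v:ℝ) + 1) * √((v:ℝ) + 1) = v + 1 := Real.mul_self_sqrt (by positivity)
        have e3 : 160 * (K2:ℝ) * √((v:ℝ) + 1) ≤ v + 1 := by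
          have : 160 * (K2:ℝ) ≤ √((v:ℝ) + 1) := by linarith
          exact (mul_le_mul_of_nonneg_right this hsq0.le).trans_eq hsqm
        have e5 : (160:ℝ) ≤ √((v:ℝ) + 1) := by linarith
        have e4 : 240 * Z ≤ v + 1 := by
          have : 240 * Z ≤ √((v:ℝ) + 1) := by linarith
          exact (this.trans (le_mul_of_one_le_left hsq0.le (by linarith))).trans_eq hsqm
        have e6 : (160:ℝ) * 160 ≤ v + 1 :=
          (mul_le_mul e5 e5 (by norm_num) hsq0.le).trans_eq hsqm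
        linarith
      exact_mod_cast e1
    have hrrm : 240 * (rr K1 B R : ℝ) ≤ m := by linarith
    have hrrm' : 240 * rr K1 B R ≤ m := by exact_mod_cast hrrm
    set K : ℝ := Fm * 20 ^ a with hK
    have hK0 : 0 ≤ K := by positivity
    have hmain := deep_case hT hB (T := 9 * m / 10) hK11 hK0 hW1 hmJ hbl hv hv' hwin (by omega) ?_
    · refine hmain.trans ?_
      have hno := hm1 m (by omega) v h29
      have hFm1 : 1 / (m:ℝ) ^ a ≤ Fm := by
        rw [hFm, div_pow]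
        exact div_le_div_of_nonneg_right (one_le_pow₀ hm0R) (by positivity)
      have hno2 : (49 / 81 : ℝ) ^ (9 * m / 10) * (8 / 7) ^ v ≤ Fm / 4 := by
        refine hno.trans ?_
        have : 1 / (4 * (m:ℝ) ^ a) = 1 / (m:ℝ) ^ a / 4 := by field_simp
        rw [this]
        linarith
      -- first term
      have t1 : 2 * (1 - c1) ^ R ≤ 1 / 4 / 20 ^ a := by
        have : 1 / 4 / (20:ℝ) ^ a = 2 * (1 / (8 * 20 ^ a)) := by
          rw [div_div, ← mul_div_assoc, div_eq_div_iff (by positivity) (by positivity)]; ring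
        rw [this]
        exact mul_le_mul_of_nonneg_left hR.le (by norm_num)
      have t2 : 2 * ((v:ℝ) + 1) / (W:ℝ) ^ 2 ≤ 1 / 8 / 20 ^ a := by
        have e0 : (0:ℝ) < v + 1 := by positivity
        have e1 : (K2:ℝ) ^ 2 * (v + 1) ≤ (W:ℝ) ^ 2 := by
          rw [hWR, mul_pow]
          exact mul_le_mul_of_nonneg_left hw1 (by positivity)
        have e2 : (K2:ℝ) = 4 * 20 ^ a := by rw [hK2]; push_cast; ring
        have e3 : 2 * ((v:ℝ) + 1) / (W:ℝ) ^ 2 ≤ 2 * (v + 1) / ((K2:ℝ) ^ 2 * (v + 1)) :=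
          div_le_div_of_nonneg_left (by positivity) (by positivity) e1
        refine e3.trans ?_
        have e4 : 2 * ((v:ℝ) + 1) / ((K2:ℝ) ^ 2 * (v + 1)) = 2 / (K2:ℝ) ^ 2 := by field_simp
        rw [e4, e2, div_div, div_le_div_iff₀ (by positivity) (by positivity)]
        have e5 : 16 * (20:ℝ) ^ a * 1 ≤ 16 * 20 ^ a * 20 ^ a :=
          mul_le_mul_of_nonneg_left h20R (by positivity)
        calc 2 * (8 * (20:ℝ) ^ a) = 16 * 20 ^ a * 1 := by ring
          _ ≤ 16 * 20 ^ a * 20 ^ a := e5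
          _ = 1 * (4 * 20 ^ a) ^ 2 := by ring
      have t3 : R * (15 / 2 * W / K1 + 15 / 2 * B * rr K1 B R) * (2 / √((v:ℝ) + 1)) ≤
          1 / 8 / 20 ^ a := by
        have hRR0 : (0:ℝ) ≤ R := Nat.cast_nonneg R
        have hK1R : (K1:ℝ) = 480 * (R + 1) * K2 * 20 ^ a := by rw [hK1]; push_cast; ring
        have hK1p : (0:ℝ) < K1 := by exact_mod_cast hK11
        have e1 : R * (15 / 2 * W / K1) * (2 / √((v:ℝ) + 1)) ≤ 1 / 16 / 20 ^ a := by
          have e3 : R * (15 / 2 * W / K1) * (2 / √((v:ℝ) + 1)) = 15 * R * W / (K1 * √((v:ℝ) + 1)) := by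
            field_simp
          rw [e3, div_div, div_le_div_iff₀ (by positivity) (by positivity), hK1R]
          have e4 : 15 * (R:ℝ) * W * (16 * 20 ^ a) ≤
              15 * R * (2 * K2 * √((v:ℝ) + 1)) * (16 * 20 ^ a) := by gcongr
          refine e4.trans ?_
          have e5 : (0:ℝ) ≤ K2 * 20 ^ a * √((v:ℝ) + 1) := by positivity
          calc 15 * (R:ℝ) * (2 * K2 * √((v:ℝ) + 1)) * (16 * 20 ^ a) =
              480 * R * (K2 * 20 ^ a * √((v:ℝ) + 1)) := by ring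
            _ ≤ 480 * (R + 1) * (K2 * 20 ^ a * √((v:ℝ) + 1)) :=
              mul_le_mul_of_nonneg_right (by linarith) e5
            _ = 1 * (480 * (R + 1) * K2 * 20 ^ a * √((v:ℝ) + 1)) := by ring
        have e6 : R * (15 / 2 * B * rr K1 B R) * (2 / √((v:ℝ) + 1)) ≤ 1 / 16 / 20 ^ a := by
          have e7 : R * (15 / 2 * B * rr K1 B R) * (2 / √((v:ℝ) + 1)) =
              15 * R * Z / √((v:ℝ) + 1) := by rw [hZ]; field_simp
          rw [e7, div_div, div_le_div_iff₀ hsq0 (by positivity)]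
          have e8 : 240 * 20 ^ a * (R + 1) * Z ≤ √((v:ℝ) + 1) := by linarith
          have e9 : (0:ℝ) ≤ 20 ^ a * Z := by positivity
          calc 15 * (R:ℝ) * Z * (16 * 20 ^ a) = 240 * R * (20 ^ a * Z) := by ring
            _ ≤ 240 * (R + 1) * (20 ^ a * Z) := mul_le_mul_of_nonneg_right (by linarith) e9
            _ = 240 * 20 ^ a * (R + 1) * Z := by ring
            _ ≤ √((v:ℝ) + 1) := e8
            _ = 1 * √((v:ℝ) + 1) := (one_mul _).symm
        have e10 : R * (15 / 2 * W / K1 + 15 / 2 * B * rr K1 B R) * (2 / √((v:ℝ) + 1)) =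
          R * (15 / 2 * W / K1) * (2 / √((v:ℝ) + 1)) +
            R * (15 / 2 * B * rr K1 B R) * (2 / √((v:ℝ) + 1)) := by ring
        rw [e10]
        have e11 : 1 / 8 / (20:ℝ) ^ a = 1 / 16 / 20 ^ a + 1 / 16 / 20 ^ a := by ring
        rw [e11]
        exact add_le_add e1 e6
      have t4 : K * (2 * (1 - c1) ^ R + 2 * (v + 1) / (W:ℝ) ^ 2 +
          R * (15 / 2 * W / K1 + 15 / 2 * B * rr K1 B R) * (2 / √((v:ℝ) + 1))) ≤ Fm / 2 := by
        have e1 : K * (1 / 4 / 20 ^ a + 1 / 8 / 20 ^ a + 1 / 8 / 20 ^ a) = Fm / 2 := by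
          have e2 : (20:ℝ) ^ a * (1 / 20 ^ a) = 1 := mul_one_div_cancel (by positivity)
          calc K * (1 / 4 / 20 ^ a + 1 / 8 / 20 ^ a + 1 / 8 / 20 ^ a) =
              Fm * (20 ^ a * (1 / 20 ^ a)) / 2 := by rw [hK]; ring
            _ = Fm / 2 := by rw [e2, mul_one]
        rw [← e1]
        exact mul_le_mul_of_nonneg_left (add_le_add (add_le_add t1 t2) t3) hK0
      linarith
    · intro t ht1 ht2 x hx h
      have e1 : (1 / 20 : ℝ) * m ≤ ((m - t - x : ℕ) : ℝ) := by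
        have e2 : m ≤ 20 * (m - t - x) := by omega
        have e3 : (m:ℝ) ≤ 20 * ((m - t - x : ℕ) : ℝ) := by exact_mod_cast e2
        linarith
      have e4 := hIH (1 / 20) (by norm_num) (m - t - x) (by omega) e1 h
      refine e4.trans (le_of_eq ?_)
      rw [hK, one_div, inv_pow, div_inv_eq_mul]
  · -- white or shallow candidate
    have hK0 : 0 ≤ Fm / (1 - c) ^ a := div_nonneg hFm0.le (pow_nonneg (by linarith) _)
    have hsm : s / 2 + 2 ≤ m := by
      have : ((s / 2 + 2 : ℕ) : ℝ) ≤ m := by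
        have e1 := @Nat.cast_div_le ℝ _ _ _ s 2
        push_cast at e1 ⊢
        linarith
      exact_mod_cast this
    refine (stage hT hB hK0 (s := s) hmJ hsm hcase ?_).trans ?_
    · intro x h hx1 hx2 _ _
      refine hIH (1 - c) (by linarith) (m - x) (by omega) ?_ _
      have e1 := @Nat.cast_div_le ℝ _ _ _ s 2
      have e2 : (x:ℝ) ≤ ((s / 2 + 2 : ℕ) : ℝ) := by exact_mod_cast hx2
      rw [Nat.cast_sub (by omega)]
      push_cast at e1 e2 ⊢
      linarith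
    · rw [← hc1, mul_div_assoc', div_le_iff₀ (pow_pos (by linarith) _)]
      rw [mul_comm]
      exact mul_le_mul_of_nonneg_left hbern hFm0.le

/-- The module statement of part (A). -/
theorem decayStatement : H45.DecayStatement := by
  intro a
  obtain ⟨C, R, h⟩ := decay a
  refine ⟨C, R, fun B J ρ hB hρ m l hm hmJ => ?_⟩
  have hT : Tab J ρ := ⟨hρ.small, hρ.half, hρ.nine, hρ.ne, hρ.div⟩
  have hQ : ∀ m l, H45.Q ρ J B m l = Q J B ρ m l := by
    intro m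
    induction m with
    | zero => intro l; rfl
    | succ m ih =>
      intro l
      rw [H45.Q, Q]
      refine sum_congr rfl fun b _ => ?_
      rw [ih, H45.wt, p]
  rw [hQ]
  exact h B J ρ hB hT m l hm hmJ

end Pool.Agent.Lib.MP_0a5adf_nt.TAO.H2
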