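import Pool.Agent.Lib.MP_0a5adf_nt.TP.Interfaces
import Pool.Agent.Lib.MP_0a5adf_nt.H89.Density

/-!
# TAO+ module DESCP: the descent theorem of helper89 for the 3x+1 map
-/

set_option autoImplicit false

namespace Pool.Agent.Lib.MP_0a5adf_nt.TAO.H2

open Pool.Agent.Lib.MP_0a5adf_nt

theorem T_true : TP.T true = H89.T := by
  funext n
  unfold TP.T H89.T
  simp

theorem descp : TP.DescStatement true := by
  constructor
  · intro L lam hlam
    have h1 := H89.reach_upper L lam (by linarith)
    have h2 : TP.Reach true L lam = H89.Reach L lam := by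
      unfold TP.Reach H89.Reach
      rw [T_true]
    rw [h2]
    exact h1
  · obtain ⟨c, C, hc, hC, h⟩ := H89.descent (1 / 20) (by norm_num) H89.one_twentieth_lt
    refine ⟨1 / 20, C, by norm_num, by norm_num, hC, fun L y lam h1 h2 h3 h4 => ?_⟩
    have h5 : TP.Fail true L y lam = H89.Fail L y lam := by
      unfold TP.Fail H89.Fail
      rw [T_true]
    rw [h5]
    exact (h L y lam h1 h2 h3 h4).1

end Pool.Agent.Lib.MP_0a5adf_nt.TAO.H2
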