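import Pool.Agent.Lib.MP_0a5adf_nt.TP.Interfaces

/-!
# TAO+ module JOSC: parameters
-/

set_option autoImplicit false

open Finset Filter Topology

namespace Pool.Agent.Lib.MP_0a5adf_nt.TAO.H2

open Pool.Agent.Lib.MP_0a5adf_nt.TP

theorem oscf_le (n : ℕ) (g : ZMod (3 ^ n) → ℝ) : oscf n g ≤ 2 * ∑ X : ZMod (3 ^ n), |g X| := by
  have hs : ∀ u : ZMod (3 ^ n), ∑ X : ZMod (3 ^ n), |g (X + u)| = ∑ X : ZMod (3 ^ n), |g X| :=
    fun u => Fintype.sum_equiv (Equiv.addRight u) _ _ fun X => rfl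
  unfold oscf
  have h1 : ∀ X : ZMod (3 ^ n), |g X - (g X + g (X + 3 ^ (n - 1)) + g (X + 2 * 3 ^ (n - 1))) / 3| ≤
      |g X| + (1 / 3 * |g (X + 3 ^ (n - 1))| + 1 / 3 * |g (X + 2 * 3 ^ (n - 1))|) := by
    intro X
    have a1 := abs_sub (g X) ((g X + g (X + 3 ^ (n - 1)) + g (X + 2 * 3 ^ (n - 1))) / 3)
    rw [abs_le]
    have b1 := neg_abs_le (g X)
    have b2 := le_abs_self (g X)
    have b3 := neg_abs_le (g (X + 3 ^ (n - 1)))
    have b4 := le_abs_self (g (X + 3 ^ (n - 1)))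
    have b5 := neg_abs_le (g (X + 2 * 3 ^ (n - 1)))
    have b6 := le_abs_self (g (X + 2 * 3 ^ (n - 1)))
    constructor <;> linarith
  refine (sum_le_sum fun X _ => h1 X).trans ?_
  rw [sum_add_distrib, sum_add_distrib, ← mul_sum, ← mul_sum, hs, hs]
  have : 0 ≤ ∑ X : ZMod (3 ^ n), |g X| := sum_nonneg fun X _ => abs_nonneg _
  linarith

theorem sum_f (n c : ℕ) : ∑ X : ZMod (3 ^ n), |f n c X| = ((Fam n c).card : ℝ) * (1 / 2) ^ c := by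
  classical
  have h1 : ∀ X : ZMod (3 ^ n), |f n c X| = f n c X := fun X => abs_of_nonneg (by
    unfold f; positivity)
  rw [sum_congr rfl fun X _ => h1 X]
  unfold f
  rw [← sum_div, ← Nat.cast_sum, ← card_eq_sum_card_fiberwise (f := xz (3 ^ n)) (s := Fam n c)
    (t := univ) fun _ _ => mem_coe.2 (mem_univ _), one_div, inv_pow, div_eq_mul_inv]

theorem josc_trivial (hM : MassStatement) (n c₁ : ℕ) : Josc n c₁ ≤ 2 := by
  unfold Josc
  have h1 : ∑ c ∈ range c₁, oscf n (f n c) ≤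
      ∑ c ∈ range c₁, 2 * (((Fam n c).card : ℝ) * (1 / 2) ^ c) := by
    refine sum_le_sum fun c _ => ?_
    rw [← sum_f]
    exact oscf_le n _
  refine h1.trans ?_
  rw [← mul_sum]
  have h2 := hM.2.2 (1 / 2) n c₁ (by norm_num) (by norm_num)
  have h3 : ((1:ℝ) / 2 / (1 - 1 / 2)) ^ n = 1 := by norm_num
  rw [h3] at h2
  linarith

/-- Polynomials against exponentials. -/
theorem poly_exp (k : ℕ) {κ : ℝ} (h0 : 0 ≤ κ) (h1 : κ < 1) : ∃ C : ℝ, 0 < C ∧ ∀ n : ℕ,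
    (n:ℝ) ^ k * κ ^ n ≤ C := by
  have h2 := tendsto_pow_const_mul_const_pow_of_lt_one k h0 h1
  obtain ⟨C, hC⟩ := h2.bddAbove_range
  refine ⟨max C 1, by positivity, fun n => ?_⟩
  exact (hC (Set.mem_range_self n)).trans (le_max_left _ _)

theorem josc (hJ : JcoreStatement) (hF : FourierStatement) (hM : MassStatement) :
    JoscStatement := by
  intro A
  obtain ⟨Cf, hCf, hFou⟩ := hF (3 * A + 4)
  -- exponential terms
  obtain ⟨Ce, hCe, hexp⟩ := poly_exp (10 * A) (κ := (8 / 7 : ℝ) ^ 16 / (9 / 7) ^ 9)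
    (by positivity) (by norm_num)
  obtain ⟨Cg, hCg, hexp2⟩ := poly_exp A (κ := (16 / 27 : ℝ)) (by norm_num) (by norm_num)
  have hev := (tendsto_pow_const_mul_const_pow_of_lt_one (2 * (A + 1)) (r := (1 / 3 : ℝ))
    (by norm_num) (by norm_num)).eventually (gt_mem_nhds (show (0:ℝ) < 1 / 2 by norm_num))
  obtain ⟨n1, hn1⟩ := eventually_atTop.1 hev
  set n0 : ℕ := max n1 10 with hn0
  set C1 : ℝ := (9 / 7) ^ 9 * Ce + 1 with hC1
  have hC11 : 1 ≤ C1 := by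
    have : 0 ≤ (9 / 7 : ℝ) ^ 9 * Ce := by positivity
    linarith
  refine ⟨2 * (n0:ℝ) ^ A + (2 * (C1 + 1 + 1 + Cg) + 8 * (Cf * 10 ^ (3 * A + 4))), by positivity, ?_⟩
  intro n c₁ hn
  have hnR : (0:ℝ) < n := by exact_mod_cast hn
  have hnA : (0:ℝ) < (n:ℝ) ^ A := by positivity
  have hX0 : 0 ≤ 2 * (C1 + 1 + 1 + Cg) + 8 * (Cf * 10 ^ (3 * A + 4)) := by positivity
  rcases lt_or_ge n n0 with hlt | hge
  · refine (josc_trivial hM n c₁).trans ?_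
    rw [le_div_iff₀ hnA]
    have h1 : (n:ℝ) ^ A ≤ (n0:ℝ) ^ A := pow_le_pow_left₀ hnR.le (by exact_mod_cast hlt.le) A
    linarith
  have hn10 : 10 ≤ n := (le_max_right _ _).trans hge
  have hsm := hn1 n ((le_max_left _ _).trans hge)
  have hn1R : (1:ℝ) ≤ n := by exact_mod_cast hn
  -- parameters
  set P : ℕ := n ^ (A + 1) with hP
  have hP1 : 1 ≤ P := Nat.one_le_pow _ _ hn
  set t : ℕ := Nat.clog 2 P with ht
  have ht1 : P ≤ 2 ^ t := Nat.le_pow_clog (by norm_num) P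
  have ht2 : 2 ^ t ≤ 2 * P := by
    rcases Nat.eq_zero_or_pos t with h0 | h0
    · rw [h0]; omega
    · have h2 : 2 ^ (t - 1) < P := by
        have : 1 < P := by
          by_contra hcon
          have : P = 1 := by omega
          rw [ht, this] at h0
          simp at h0
        have := Nat.pow_pred_clog_lt_self (b := 2) (by norm_num) this
        rwa [← ht, Nat.pred_eq_sub_one] at this
      have h3 : 2 ^ t = 2 * 2 ^ (t - 1) := by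
        rw [← pow_succ']; congr 1; omega
      omega
  have htP : t ≤ P := Nat.clog_le_of_le_pow Nat.lt_two_pow_self.le
  have hbig : P * 2 ^ t ≤ 3 ^ n := by
    have h1 : (P:ℝ) * P * 2 ≤ 3 ^ n := by
      rw [one_div, inv_pow, ← div_eq_mul_inv, div_lt_iff₀ (by positivity)] at hsm
      have : (P:ℝ) * P = (n:ℝ) ^ (2 * (A + 1)) := by
        rw [hP]; push_cast; rw [← pow_add]; congr 1; ring
      rw [this]
      linarith
    have h2 : P * P * 2 ≤ 3 ^ n := by exact_mod_cast h1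
    calc P * 2 ^ t ≤ P * (2 * P) := Nat.mul_le_mul_left _ ht2
      _ = P * P * 2 := by ring
      _ ≤ 3 ^ n := h2
  have hPt : 0 < P * 2 ^ t := by positivity
  set q : ℕ := 3 ^ n / (P * 2 ^ t) with hq
  have hq0 : q ≠ 0 := by
    have : 1 ≤ q := (Nat.one_le_div_iff hPt).2 hbig
    omega
  set b : ℕ := Nat.log 2 q with hb
  have hb1 : 2 ^ b ≤ q := Nat.pow_log_le_self 2 hq0
  have hb2 : q < 2 ^ (b + 1) := Nat.lt_pow_succ_log_self (by norm_num) q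
  have hb3 : P * 2 ^ (b + t) ≤ 3 ^ n := by
    calc P * 2 ^ (b + t) = 2 ^ b * (P * 2 ^ t) := by rw [pow_add]; ring
      _ ≤ q * (P * 2 ^ t) := Nat.mul_le_mul_right _ hb1
      _ ≤ 3 ^ n := Nat.div_mul_le_self _ _
  have hb4 : 3 ^ n < 2 ^ (b + 1) * (P * 2 ^ t) := (Nat.div_lt_iff_lt_mul hPt).1 hb2
  have hb5 : 5 * b ≤ 8 * n := by
    have h1 : 2 ^ (5 * b) ≤ 2 ^ (8 * n) := by
      calc 2 ^ (5 * b) = (2 ^ b) ^ 5 := by rw [← pow_mul, mul_comm]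
        _ ≤ (3 ^ n) ^ 5 := by
          refine Nat.pow_le_pow_left (hb1.trans (Nat.div_le_self _ _)) 5
        _ = 243 ^ n := by rw [← pow_mul, mul_comm, pow_mul]; norm_num
        _ ≤ 256 ^ n := Nat.pow_le_pow_left (by norm_num) n
        _ = 2 ^ (8 * n) := by rw [pow_mul]; norm_num
    exact (Nat.pow_le_pow_iff_right (by norm_num)).1 h1
  set h : ℕ := 9 * n / 10 with hh
  set ε : ℝ := Cf * 10 ^ (3 * A + 4) / (n:ℝ) ^ (3 * A + 4) with hε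
  have hε0 : 0 ≤ ε := by positivity
  have hFb : ∀ (k' c' : ℕ) (ζ : ZMod (3 ^ k')), n - h ≤ k' → k' ≤ n → ¬ 3 ∣ ζ.val →
      ‖Fc k' c' ζ‖ ≤ ε := by
    intro k' c' ζ hk hk' hζ
    have hk1 : 1 ≤ k' := by omega
    refine (hFou k' c' ζ hk1 hζ).trans ?_
    have h1 : (n:ℝ) / 10 ≤ k' := by
      have : n ≤ 10 * k' := by omega
      have h2 : (n:ℝ) ≤ 10 * k' := by exact_mod_cast this
      linarith
    have h2 : ((n:ℝ) / 10) ^ (3 * A + 4) ≤ (k':ℝ) ^ (3 * A + 4) :=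
      pow_le_pow_left₀ (by positivity) h1 _
    rw [hε, div_le_div_iff₀ (by positivity) (by positivity)]
    rw [div_pow, div_le_iff₀ (by positivity)] at h2
    calc Cf * (n:ℝ) ^ (3 * A + 4) ≤ Cf * ((k':ℝ) ^ (3 * A + 4) * 10 ^ (3 * A + 4)) :=
          mul_le_mul_of_nonneg_left h2 hCf.le
      _ = Cf * 10 ^ (3 * A + 4) * (k':ℝ) ^ (3 * A + 4) := by ring
  have hPR : (0:ℝ) < P := by exact_mod_cast hP1
  have hmain := hJ n b t h (4 * n) c₁ (P:ℝ) ε (by omega) (by omega) hPR hε0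
    (by exact_mod_cast hb3) hFb
  refine hmain.trans ?_
  -- T1
  have T1 : (8 / 7 : ℝ) ^ b / (9 / 7 : ℝ) ^ h ≤ C1 / (n:ℝ) ^ A := by
    set z : ℝ := (8 / 7 : ℝ) ^ b / (9 / 7 : ℝ) ^ h with hz
    have hz0 : 0 ≤ z := by positivity
    have e1 : z ^ 10 = (8 / 7 : ℝ) ^ (10 * b) / (9 / 7) ^ (10 * h) := by
      rw [hz, div_pow, ← pow_mul, ← pow_mul, mul_comm b, mul_comm h]
    have e2 : (8 / 7 : ℝ) ^ (10 * b) ≤ (8 / 7) ^ (16 * n) :=
      pow_le_pow_right₀ (by norm_num) (by omega)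
    have e3 : (9 / 7 : ℝ) ^ (9 * n) ≤ (9 / 7) ^ 9 * (9 / 7) ^ (10 * h) := by
      rw [← pow_add]
      exact pow_le_pow_right₀ (by norm_num) (by omega)
    have e4 : z ^ 10 ≤ (9 / 7) ^ 9 * ((8 / 7 : ℝ) ^ 16 / (9 / 7) ^ 9) ^ n := by
      have e7 : ((8 / 7 : ℝ) ^ 16 / (9 / 7) ^ 9) ^ n = (8 / 7) ^ (16 * n) / (9 / 7) ^ (9 * n) := by
        rw [div_pow ((8 / 7 : ℝ) ^ 16), ← pow_mul, ← pow_mul]
      rw [e1, e7, ← mul_div_assoc, div_le_div_iff₀ (by positivity) (by positivity)]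
      calc (8 / 7 : ℝ) ^ (10 * b) * (9 / 7) ^ (9 * n) ≤
          (8 / 7) ^ (16 * n) * ((9 / 7) ^ 9 * (9 / 7) ^ (10 * h)) := by gcongr
        _ = (9 / 7) ^ 9 * (8 / 7) ^ (16 * n) * (9 / 7) ^ (10 * h) := by ring
    have e5 := hexp n
    have e6 : z ^ 10 * (n:ℝ) ^ (10 * A) ≤ C1 ^ 10 := by
      calc z ^ 10 * (n:ℝ) ^ (10 * A) ≤
          (9 / 7) ^ 9 * ((8 / 7 : ℝ) ^ 16 / (9 / 7) ^ 9) ^ n * (n:ℝ) ^ (10 * A) :=
            mul_le_mul_of_nonneg_right e4 (by positivity)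
        _ = (9 / 7) ^ 9 * ((n:ℝ) ^ (10 * A) * ((8 / 7 : ℝ) ^ 16 / (9 / 7) ^ 9) ^ n) := by ring
        _ ≤ (9 / 7) ^ 9 * Ce := mul_le_mul_of_nonneg_left e5 (by positivity)
        _ ≤ C1 := by rw [hC1]; linarith
        _ ≤ C1 ^ 10 := le_self_pow₀ hC11 (by norm_num)
    rw [le_div_iff₀ hnA]
    refine le_of_pow_le_pow_left₀ (n := 10) (by norm_num) (by positivity) ?_
    rw [mul_pow, ← pow_mul, mul_comm A 10]
    exact e6
  have T2 : 1 / (2:ℝ) ^ t ≤ 1 / (n:ℝ) ^ A := by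
    refine one_div_le_one_div_of_le hnA ?_
    have e1 : (P:ℝ) ≤ 2 ^ t := by exact_mod_cast ht1
    refine le_trans ?_ e1
    rw [hP]
    push_cast
    exact pow_le_pow_right₀ hn1R (Nat.le_succ A)
  have T3 : (n:ℝ) / (3 * P) ≤ 1 / (n:ℝ) ^ A := by
    rw [hP]
    push_cast
    rw [div_le_div_iff₀ (by positivity) (by positivity), pow_succ]
    have : 0 ≤ (n:ℝ) ^ A * n := by positivity
    linarith
  have T4 : (3:ℝ) ^ n / (3 / 2 : ℝ) ^ (4 * n) ≤ Cg / (n:ℝ) ^ A := by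
    have e1 : (3:ℝ) ^ n / (3 / 2 : ℝ) ^ (4 * n) = (16 / 27) ^ n := by
      rw [pow_mul, ← div_pow]
      norm_num
    rw [e1, le_div_iff₀ hnA, mul_comm]
    exact hexp2 n
  have T5 : ((4 * n : ℕ) : ℝ) * (h * (t * (ε * √(3 ^ n / 2 ^ b)))) ≤
      8 * (Cf * 10 ^ (3 * A + 4)) / (n:ℝ) ^ A := by
    have e1 : √((3:ℝ) ^ n / 2 ^ b) ≤ 2 * P := by
      rw [Real.sqrt_le_left (by positivity), div_le_iff₀ (by positivity)]
      have e2 : (3:ℝ) ^ n ≤ 2 ^ (b + 1) * (P * 2 ^ t) := by exact_mod_cast hb4.le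
      have e3 : (2:ℝ) ^ t ≤ 2 * P := by exact_mod_cast ht2
      calc (3:ℝ) ^ n ≤ 2 ^ (b + 1) * (P * 2 ^ t) := e2
        _ ≤ 2 ^ (b + 1) * (P * (2 * P)) := by gcongr
        _ = (2 * P) ^ 2 * 2 ^ b := by ring
    have e4 : (h:ℝ) ≤ n := by exact_mod_cast (show h ≤ n by omega)
    have e5 : (t:ℝ) ≤ P := by exact_mod_cast htP
    calc ((4 * n : ℕ) : ℝ) * (h * (t * (ε * √(3 ^ n / 2 ^ b)))) ≤
        ((4 * n : ℕ) : ℝ) * (n * (P * (ε * (2 * P)))) := by gcongr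
      _ = 8 * (Cf * 10 ^ (3 * A + 4)) / (n:ℝ) ^ A := by
        rw [hε, hP]
        push_cast
        have e6 : (n:ℝ) ^ (3 * A + 4) = (n:ℝ) ^ A * ((n:ℝ) ^ (A + 1) * (n:ℝ) ^ (A + 1) * n * n) := by
          ring
        rw [e6]
        field_simp
        ring
  have hfin : 2 * ((8 / 7 : ℝ) ^ b / (9 / 7 : ℝ) ^ h + 1 / 2 ^ t + n / (3 * (P:ℝ)) +
      3 ^ n / (3 / 2 : ℝ) ^ (4 * n)) + ((4 * n : ℕ) : ℝ) * (h * (t * (ε * √(3 ^ n / 2 ^ b)))) ≤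
      (2 * (C1 + 1 + 1 + Cg) + 8 * (Cf * 10 ^ (3 * A + 4))) / (n:ℝ) ^ A := by
    have e1 : (2 * (C1 + 1 + 1 + Cg) + 8 * (Cf * 10 ^ (3 * A + 4))) / (n:ℝ) ^ A =
        2 * (C1 / (n:ℝ) ^ A + 1 / (n:ℝ) ^ A + 1 / (n:ℝ) ^ A + Cg / (n:ℝ) ^ A) +
          8 * (Cf * 10 ^ (3 * A + 4)) / (n:ℝ) ^ A := by ring
    rw [e1]
    linarith
  refine hfin.trans (div_le_div_of_nonneg_right ?_ hnA.le)
  have : 0 ≤ 2 * (n0:ℝ) ^ A := by positivity
  linarith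

end Pool.Agent.Lib.MP_0a5adf_nt.TAO.H2
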