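import Pool.Agent.Lib.MP_0a5adf_nt.TAO.H2.Exit

/-!
# TAO+ part (A): bounds for the exit probabilities
-/

open Finset

namespace Pool.Agent.Lib.MP_0a5adf_nt.TAO.H2

theorem central_sq (n : ℕ) : (2 * n + 1) * Nat.centralBinom n ^ 2 ≤ 16 ^ n := by
  induction n with
  | zero => simp
  | succ n ih =>
    have h1 := Nat.succ_mul_centralBinom_succ n
    have h2 : (n + 1) ^ 2 * ((2 * (n + 1) + 1) * Nat.centralBinom (n + 1) ^ 2) ≤
        (n + 1) ^ 2 * 16 ^ (n + 1) := by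
      calc (n + 1) ^ 2 * ((2 * (n + 1) + 1) * Nat.centralBinom (n + 1) ^ 2) =
          (2 * n + 3) * ((n + 1) * Nat.centralBinom (n + 1)) ^ 2 := by ring
        _ = 4 * (2 * n + 3) * (2 * n + 1) * ((2 * n + 1) * Nat.centralBinom n ^ 2) := by
          rw [h1]; ring
        _ ≤ 4 * (2 * n + 3) * (2 * n + 1) * 16 ^ n := Nat.mul_le_mul_left _ ih
        _ ≤ 16 * (n + 1) ^ 2 * 16 ^ n := Nat.mul_le_mul_right _ (by nlinarith)
        _ = (n + 1) ^ 2 * 16 ^ (n + 1) := by ring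
    exact Nat.le_of_mul_le_mul_left h2 (by positivity)

theorem choose_sq (n r : ℕ) : n * n.choose r ^ 2 ≤ 4 ^ n := by
  rcases Nat.even_or_odd' n with ⟨k, rfl | rfl⟩
  · have h1 := Nat.choose_le_centralBinom r k
    have h2 := central_sq k
    calc 2 * k * (2 * k).choose r ^ 2 ≤ (2 * k + 1) * Nat.centralBinom k ^ 2 :=
          Nat.mul_le_mul (by omega) (Nat.pow_le_pow_left h1 2)
      _ ≤ 16 ^ k := h2
      _ = 4 ^ (2 * k) := by rw [pow_mul]; norm_num
  · have h0 : (2 * k + 1).choose r ≤ 2 * Nat.centralBinom k := by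
      rcases r with _ | r
      · have := Nat.centralBinom_pos k
        simp only [Nat.choose_zero_right]
        omega
      · rw [Nat.choose_succ_succ']
        have h1 := Nat.choose_le_centralBinom r k
        have h2 := Nat.choose_le_centralBinom (r + 1) k
        omega
    have h2 := central_sq k
    calc (2 * k + 1) * (2 * k + 1).choose r ^ 2 ≤ (2 * k + 1) * (2 * Nat.centralBinom k) ^ 2 :=
          Nat.mul_le_mul_left _ (Nat.pow_le_pow_left h0 2)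
      _ = 4 * ((2 * k + 1) * Nat.centralBinom k ^ 2) := by ring
      _ ≤ 4 * 16 ^ k := Nat.mul_le_mul_left _ h2
      _ = 4 ^ (2 * k + 1) := by rw [pow_succ, pow_mul]; norm_num; ring

theorem ex_le (D i : ℕ) : ex D i ≤ 2 / √(D + 1) := by
  have h1 := choose_sq (D + 1) (2 * i - 1)
  have h2 : ((D:ℝ) + 1) * ((D + 1).choose (2 * i - 1) : ℝ) ^ 2 ≤ 4 ^ (D + 1) := by
    exact_mod_cast h1
  have h3 : (0:ℝ) < √(D + 1) := Real.sqrt_pos.2 (by positivity)
  rw [ex, div_le_div_iff₀ (by positivity) h3]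
  refine le_of_sq_le_sq ?_ (by positivity)
  rw [mul_pow, Real.sq_sqrt (by positivity)]
  have h4 : ((2:ℝ) * 2 ^ D) ^ 2 = 4 ^ (D + 1) := by
    rw [← pow_succ', ← pow_mul, mul_comm, pow_mul]
    norm_num
  rw [h4]
  linarith

theorem sum_var (n : ℕ) : ∑ r ∈ range (n + 1), (n.choose r : ℝ) * (2 * (r : ℝ) - (n : ℝ)) ^ 2 =
    (n : ℝ) * 2 ^ n := by
  induction n with
  | zero => simp
  | succ n ih =>
    have h0 := Finset.sum_choose_succ_mul (R := ℝ)
      (fun i _ => (2 * (i:ℝ) - ((n + 1 : ℕ) : ℝ)) ^ 2) n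
    rw [show n + 1 + 1 = n + 2 from rfl, h0, ← sum_add_distrib]
    have h1 : ∀ i ∈ range (n + 1), (n.choose i : ℝ) * (2 * (i:ℝ) - ((n + 1 : ℕ) : ℝ)) ^ 2 +
        (n.choose i : ℝ) * (2 * ((i + 1 : ℕ) : ℝ) - ((n + 1 : ℕ) : ℝ)) ^ 2 =
        2 * ((n.choose i : ℝ) * (2 * i - n) ^ 2) + 2 * (n.choose i : ℝ) := by
      intro i _
      push_cast
      ring
    rw [sum_congr rfl h1, sum_add_distrib, ← mul_sum, ← mul_sum, ih]
    have h2 : ∑ i ∈ range (n + 1), (n.choose i : ℝ) = 2 ^ n := by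
      have := Nat.sum_range_choose n
      exact_mod_cast this
    rw [h2]
    push_cast
    ring

theorem sum_odd_le (n : ℕ) (S : Finset ℕ) (hS : ∀ i ∈ S, 1 ≤ i) (g : ℕ → ℝ) (hg : ∀ r, 0 ≤ g r) :
    ∑ i ∈ S, (n.choose (2 * i - 1) : ℝ) * g (2 * i - 1) ≤
      ∑ r ∈ range (n + 1), (n.choose r : ℝ) * g r := by
  have h1 : ∑ i ∈ S, (n.choose (2 * i - 1) : ℝ) * g (2 * i - 1) =
      ∑ i ∈ S.filter (fun i => 2 * i - 1 ≤ n), (n.choose (2 * i - 1) : ℝ) * g (2 * i - 1) := by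
    symm
    refine sum_filter_of_ne fun i _ hne => ?_
    by_contra hcon
    rw [Nat.choose_eq_zero_of_lt (by omega)] at hne
    simp at hne
  have h2 : ∑ i ∈ S.filter (fun i => 2 * i - 1 ≤ n), (n.choose (2 * i - 1) : ℝ) * g (2 * i - 1) =
      ∑ r ∈ (S.filter (fun i => 2 * i - 1 ≤ n)).image (fun i => 2 * i - 1),
        (n.choose r : ℝ) * g r := by
    rw [sum_image]
    intro a ha b hb h
    have h1 := hS a (mem_filter.1 (mem_coe.1 ha)).1
    have h2 := hS b (mem_filter.1 (mem_coe.1 hb)).1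
    simp only at h
    omega
  rw [h1, h2]
  refine sum_le_sum_of_subset_of_nonneg ?_ fun r _ _ => mul_nonneg (Nat.cast_nonneg _) (hg r)
  intro r hr
  simp only [mem_image, mem_filter] at hr
  obtain ⟨i, hi, rfl⟩ := hr
  rw [mem_range]
  omega

theorem sum_ex_le (D : ℕ) (S : Finset ℕ) (hS : ∀ i ∈ S, 1 ≤ i) : ∑ i ∈ S, ex D i ≤ 2 := by
  have h1 := sum_odd_le (D + 1) S hS (fun _ => 1) (fun _ => zero_le_one)
  have h2 : ∑ i ∈ range (D + 1 + 1), ((D + 1).choose i : ℝ) = 2 ^ (D + 1) := by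
    have := Nat.sum_range_choose (D + 1)
    exact_mod_cast this
  simp only [mul_one] at h1
  rw [h2] at h1
  simp only [ex]
  rw [← sum_div, div_le_iff₀ (by positivity), ← pow_succ']
  exact h1

/-- Chebyshev. -/
theorem sum_ex_tail (D W : ℕ) (hW : 1 ≤ W) (S : Finset ℕ) (hS : ∀ i ∈ S, 1 ≤ i)
    (hS' : ∀ i ∈ S, D + 4 * W < 4 * i ∨ 4 * i + 4 * W < D) :
    ∑ i ∈ S, ex D i ≤ 2 * (D + 1) / (W:ℝ) ^ 2 := by
  have hW0 : (0:ℝ) < W := by exact_mod_cast hW
  have h1 := sum_odd_le (D + 1) S hS (fun r => (2 * (r:ℝ) - ((D + 1 : ℕ) : ℝ)) ^ 2)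
    (fun _ => sq_nonneg _)
  rw [sum_var (D + 1)] at h1
  have h2 : ∀ i ∈ S, ex D i ≤ ((D + 1).choose (2 * i - 1) : ℝ) *
      (2 * ((2 * i - 1 : ℕ) : ℝ) - ((D + 1 : ℕ) : ℝ)) ^ 2 / ((W:ℝ) ^ 2 * 2 ^ D) := by
    intro i hi
    have h3 := hS i hi
    have h4 := hS' i hi
    rw [ex, div_le_div_iff₀ (by positivity) (by positivity), mul_assoc]
    refine mul_le_mul_of_nonneg_left ?_ (Nat.cast_nonneg _)
    refine mul_le_mul_of_nonneg_right ?_ (by positivity)
    rw [Nat.cast_sub (by omega)]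
    push_cast
    have h5 : ((W:ℝ)) ≤ |2 * (2 * (i:ℝ) - 1) - (D + 1)| := by
      have hW1 : (1:ℝ) ≤ W := by exact_mod_cast hW
      rw [le_abs]
      rcases h4 with h4 | h4
      · left
        have h6 : (D:ℝ) + 4 * W + 1 ≤ 4 * i := by exact_mod_cast h4
        linarith
      · right
        have h6 : 4 * (i:ℝ) + 4 * W + 1 ≤ D := by exact_mod_cast h4
        linarith
    rw [← sq_abs (2 * (2 * (i:ℝ) - 1) - (D + 1))]
    exact pow_le_pow_left₀ hW0.le h5 2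
  refine (sum_le_sum h2).trans ?_
  rw [← sum_div]
  refine (div_le_div_of_nonneg_right h1 (by positivity)).trans (le_of_eq ?_)
  push_cast
  field_simp
  ring

end Pool.Agent.Lib.MP_0a5adf_nt.TAO.H2
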