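import Pool.Agent.Lib.MP_0a5adf_nt.TAO.H2.Pair
import Pool.Agent.Lib.MP_0a5adf_nt.TAO.H2.Binom

/-!
# TAO+ part (A): the case of a deep black candidate
-/

open Finset

namespace Pool.Agent.Lib.MP_0a5adf_nt.TAO.H2

variable {J B : ℕ} {ρ : ℕ → ℕ → ℤ}

/-- The scales. -/
def rr (K1 B i : ℕ) : ℕ := 4 * (5 * (K1 * B)) ^ i

theorem rr_succ (K1 B i : ℕ) : rr K1 B (i + 1) = 5 * (K1 * B * rr K1 B i) := by
  simp only [rr, pow_succ]; ring

theorem rr_ge {K1 B : ℕ} (h1 : 1 ≤ K1) (h2 : 1 ≤ B) (i : ℕ) : 4 ≤ rr K1 B i := by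
  have h3 : 0 < K1 * B := Nat.mul_pos h1 h2
  have : 1 ≤ (5 * (K1 * B)) ^ i := Nat.one_le_pow _ _ (by omega)
  simp only [rr]
  omega

theorem rr_mono {K1 B : ℕ} (h1 : 1 ≤ K1) (h2 : 1 ≤ B) {i j : ℕ} (h : i ≤ j) :
    rr K1 B i ≤ rr K1 B j := by
  have h3 : 0 < K1 * B := Nat.mul_pos h1 h2
  exact Nat.mul_le_mul_left _ (Nat.pow_le_pow_right (by omega) h)

/-- A bad column of level `i`. -/
def Bad (J B : ℕ) (ρ : ℕ → ℕ → ℤ) (K1 j lam i y : ℕ) : Prop :=
  ∃ h, 1 ≤ h ∧ h ≤ B * (rr K1 B i + 1) ∧ Black J ρ (j + y) (lam + h) ∧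
    (2 ^ rr K1 B (i + 1) : ℤ) ∣ ρ (j + y) (lam + h)

/-- A safe time. -/
def Safe (J B : ℕ) (ρ : ℕ → ℕ → ℤ) (K1 R j lam t : ℕ) : Prop :=
  ∀ i < R, ∀ x ≤ rr K1 B i, ¬ Bad J B ρ K1 j lam i (t + x)

theorem safe_bound (hT : Tab J ρ) (hB : 3 ≤ B) {K1 R m l v t : ℕ} (hK1 : 1 ≤ K1) {K : ℝ}
    (hK0 : 0 ≤ K) (hm : m ≤ J) (hrow : t + rr K1 B R ≤ m)
    (hs : Safe J B ρ K1 R (J - m) (l + 3 + v) t)
    (hK : ∀ x ≤ rr K1 B R, ∀ h, Q J B ρ (m - t - x) h ≤ K) (h : ℕ) (hh : 1 ≤ h) (hh' : h ≤ B) :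
    Q J B ρ (m - t) (l + v + h) ≤ (1 - c0 / 2) ^ R * K := by
  have hc0 := c0_pos
  have hc1 := c0_lt
  have hB1 : 1 ≤ B := by omega
  have main : ∀ k ≤ R, ∀ x ≤ rr K1 B (R - k), ∀ h, 1 ≤ h → h ≤ B * (x + 1) →
      Q J B ρ (m - t - x) (l + v + h) ≤ (1 - c0 / 2) ^ k * K := by
    intro k
    induction k with
    | zero =>
      intro _ x hx h _ _
      simpa using hK x hx (l + v + h)
    | succ k ih =>
      intro hk x hx h h1 h2
      set i := R - (k + 1) with hi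
      have hi1 : R - k = i + 1 := by omega
      have hrs := rr_succ K1 B i
      have hr4 := rr_ge hK1 hB1 i
      have hKr : rr K1 B i ≤ K1 * B * rr K1 B i :=
        Nat.le_mul_of_pos_left _ (Nat.mul_pos hK1 hB1)
      have hrR : rr K1 B (i + 1) ≤ rr K1 B R := rr_mono hK1 hB1 (by omega)
      have hKk : 0 ≤ (1 - c0 / 2) ^ k * K := mul_nonneg (pow_nonneg (by linarith) _) hK0
      have hrow' : J - (m - t - x) = J - m + (t + x) := by omega
      rw [pow_succ', mul_assoc]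
      refine stage hT hB hKk (s := rr K1 B (i + 1) - 1) (by omega) (by omega) ?_ ?_
      · rintro ⟨hbl, hdv⟩
        rw [show rr K1 B (i + 1) - 1 + 1 = rr K1 B (i + 1) by omega] at hdv
        refine hs i (by omega) x hx ⟨h, h1, h2.trans (Nat.mul_le_mul_left _ (by omega)), ?_, ?_⟩
        · rwa [hrow', show l + v + h + 3 = l + 3 + v + h by omega] at hbl
        · rwa [hrow', show l + v + h + 3 = l + 3 + v + h by omega] at hdv
      · intro x' h' hx1 hx2 hx3 hx4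
        have h3 := ih (by omega) (x + x') (by rw [hi1]; omega) (h + h') (by omega) (by
          calc h + h' ≤ B * (x + 1) + B * x' := Nat.add_le_add h2 hx4
            _ = B * (x + x' + 1) := by ring)
        rw [← Nat.add_assoc, show m - t - (x + x') = m - t - x - x' by omega] at h3
        exact h3
  have := main R le_rfl 0 (by simp) h hh (by omega)
  simpa using this

/-- The number of unsafe times in the window. -/
theorem unsafe_card (hT : Tab J ρ) (hB : 3 ≤ B) {K1 R m l v W : ℕ} (hK1 : 1 ≤ K1)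
    (hW : 1 ≤ W) (hbl : Black J ρ (J - m) (l + 3)) (hv : (2 ^ v : ℤ) ∣ ρ (J - m) (l + 3))
    (hv' : ¬ (2 ^ (v + 1) : ℤ) ∣ ρ (J - m) (l + 3)) (hwin : 20 * (W + rr K1 B R + 1) ≤ v)
    (S : Finset ℕ) (hS : ∀ t ∈ S, 4 * t ≤ v + 4 * W ∧ v ≤ 4 * t + 4 * W ∧
      ¬ Safe J B ρ K1 R (J - m) (l + 3 + v) t) :
    (#S : ℝ) ≤ R * (15 / 2 * W / K1 + 15 / 2 * B * rr K1 B R) := by
  classical
  have hB1 : 1 ≤ B := by omega
  set j := J - m with hj
  obtain ⟨xo, hxo⟩ := hv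
  have hex : ρ j (l + 3 + v) = xo := by
    have h1 := hT.exact (j := j) (l := l + 3) (y := 0) (b := v) (z := xo) (by rw [hxo]; ring) ?_
    · simpa using h1
    · have h2 : |ρ j (l + 3)| = 2 ^ v * |xo| := by rw [hxo, abs_mul, abs_pow, abs_two]
      have h3 := hT.bd j (l + 3)
      rw [h2] at h3
      have h4 : (1:ℤ) ≤ 2 ^ v := one_le_pow₀ (by norm_num)
      have h5 := abs_nonneg xo
      nlinarith
  have hodd : ¬ (2:ℤ) ∣ ρ j (l + 3 + v) := by
    rw [hex]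
    rintro ⟨w, hw⟩
    exact hv' ⟨w, by rw [hxo, hw]; ring⟩
  have hsm : ∀ y, y ≤ 3 * v / 10 → 2 * (9 ^ y * |ρ j (l + 3 + v)|) ≤ (9:ℤ) ^ J := by
    intro y hy
    rw [hex]
    have h9 : (9:ℤ) ^ y ≤ 2 ^ v := by
      have h1 : (9:ℤ) ^ (10 * y) ≤ (2 ^ v) ^ 10 := by
        calc (9:ℤ) ^ (10 * y) ≤ 9 ^ (3 * v) := pow_le_pow_right₀ (by norm_num) (by omega)
          _ = 729 ^ v := by rw [pow_mul]; norm_num
          _ ≤ 1024 ^ v := pow_le_pow_left₀ (by norm_num) (by norm_num) _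
          _ = (2 ^ v) ^ 10 := by rw [← pow_mul, mul_comm v, pow_mul]; norm_num
      rw [mul_comm, pow_mul] at h1
      exact le_of_pow_le_pow_left₀ (by norm_num) (by positivity) h1
    have h2 : |ρ j (l + 3)| = 2 ^ v * |xo| := by rw [hxo, abs_mul, abs_pow, abs_two]
    have h3 : 40 * |ρ j (l + 3)| ≤ 9 ^ J := hbl
    rw [h2] at h3
    have h5 := abs_nonneg xo
    have h6 := mul_le_mul_of_nonneg_right h9 h5
    have h7 : (0:ℤ) ≤ 2 ^ v * |xo| := by positivity
    linarith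
  -- level by level
  set Si : ℕ → Finset ℕ := fun i => S.filter fun t => ∃ x ≤ rr K1 B i,
    Bad J B ρ K1 j (l + 3 + v) i (t + x) with hSi
  have hsub : S ⊆ (range R).biUnion Si := by
    intro t ht
    have h1 := (hS t ht).2.2
    unfold Safe at h1
    push Not at h1
    obtain ⟨i, hi, x, hx, hbad⟩ := h1
    rw [mem_biUnion]
    exact ⟨i, mem_range.2 hi, mem_filter.2 ⟨ht, x, hx, hbad⟩⟩
  have hlev : ∀ i ∈ range R, (#(Si i) : ℝ) ≤ 15 / 2 * W / K1 + 15 / 2 * B * rr K1 B R := by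
    intro i hi
    rw [mem_range] at hi
    have hr4 := rr_ge hK1 hB1 i
    have hrR : rr K1 B i ≤ rr K1 B R := rr_mono hK1 hB1 hi.le
    have hs1 : 1 ≤ K1 * B * rr K1 B i :=
      Nat.mul_pos (Nat.mul_pos hK1 hB1) (by omega)
    have h1 := count (Bd := Bad J B ρ K1 j (l + 3 + v) i) (Y := 3 * v / 10)
      (H := B * (rr K1 B i + 1)) (s := K1 * B * rr K1 B i) (α := (v - 4 * W) / 4)
      (β := (v + 4 * W) / 4) (r := rr K1 B i) hs1 ?_ (by omega) (Si i) ?_
    · have h2 : (v + 4 * W) / 4 + rr K1 B i - (v - 4 * W) / 4 ≤ 2 * W + 1 + rr K1 B i := by omega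
      have h3 : (#(Si i) : ℝ) ≤ (((2 * W + 1 + rr K1 B i) / (K1 * B * rr K1 B i) + 2 : ℕ) : ℝ) *
          ((B * (rr K1 B i + 1) + rr K1 B i + 1 : ℕ) : ℝ) := by
        have h4 := h1.trans (Nat.mul_le_mul_right _ (Nat.add_le_add_right
          (Nat.div_le_div_right h2) 2))
        exact_mod_cast h4
      refine h3.trans ?_
      have hK1' : (1:ℝ) ≤ K1 := by exact_mod_cast hK1
      have hB' : (1:ℝ) ≤ B := by exact_mod_cast hB1
      have hr' : (4:ℝ) ≤ rr K1 B i := by exact_mod_cast hr4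
      have hrR' : (rr K1 B i : ℝ) ≤ rr K1 B R := by exact_mod_cast hrR
      have hW' : (1:ℝ) ≤ W := by exact_mod_cast hW
      have h5 : (((2 * W + 1 + rr K1 B i) / (K1 * B * rr K1 B i) : ℕ) : ℝ) ≤
          (2 * W + 1 + rr K1 B i) / (K1 * B * rr K1 B i) := by
        have := @Nat.cast_div_le ℝ _ _ _ (2 * W + 1 + rr K1 B i) (K1 * B * rr K1 B i)
        push_cast at this
        exact this
      have h6 : ((B * (rr K1 B i + 1) + rr K1 B i + 1 : ℕ) : ℝ) ≤ 5 / 2 * B * rr K1 B i := by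
        push_cast
        nlinarith
      have h7 : (((2 * W + 1 + rr K1 B i) / (K1 * B * rr K1 B i) + 2 : ℕ) : ℝ) ≤
          (2 * W + 1 + rr K1 B i) / (K1 * B * rr K1 B i) + 2 := by
        push_cast
        linarith
      refine (mul_le_mul h7 h6 (Nat.cast_nonneg _) (by positivity)).trans ?_
      have h8 : ((2 * (W:ℝ) + 1 + rr K1 B i) / (K1 * B * rr K1 B i) + 2) *
          (5 / 2 * B * rr K1 B i) = 5 / 2 * (2 * W + 1 + rr K1 B i) / K1 +
            5 * B * rr K1 B i := by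
        field_simp
      rw [h8]
      have h9 : 5 / 2 * (2 * (W:ℝ) + 1 + rr K1 B i) / K1 ≤ 15 / 2 * W / K1 +
          5 / 2 * rr K1 B i := by
        rw [div_le_iff₀ (by linarith), add_mul, div_mul_cancel₀ _ (by linarith)]
        nlinarith
      have h10 : 5 / 2 * (rr K1 B i : ℝ) ≤ 5 / 2 * B * rr K1 B R := by nlinarith
      have h11 : 5 * (B:ℝ) * rr K1 B i ≤ 5 * B * rr K1 B R :=
        mul_le_mul_of_nonneg_left hrR' (by positivity)
      linarith
    · rintro y1 y2 hy hy2 ⟨h1, a1, a2, a3, a4⟩ ⟨h2, b1, b2, b3, b4⟩ hlt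
      by_contra hcon
      refine pair hT hy hodd (hsm y2 hy2) a1 a2 b2 a3 b3 a4 b4 (not_le.1 hcon) ?_
      rw [rr_succ]
      omega
    · intro t ht
      rw [hSi, mem_filter] at ht
      obtain ⟨h1, h2, -⟩ := hS t ht.1
      exact ⟨by omega, by omega, ht.2⟩
  have h1 : (#S : ℝ) ≤ ∑ i ∈ range R, (#(Si i) : ℝ) := by
    have := (card_le_card hsub).trans card_biUnion_le
    exact_mod_cast this
  refine h1.trans ((sum_le_sum hlev).trans (le_of_eq ?_))
  rw [sum_const, card_range, nsmul_eq_mul]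

/-- A deep black candidate. -/
theorem deep_case (hT : Tab J ρ) (hB : 3 ≤ B) {K1 R m l v W T : ℕ} (hK1 : 1 ≤ K1) {K : ℝ}
    (hK0 : 0 ≤ K) (hW : 1 ≤ W) (hm : m ≤ J) (hbl : Black J ρ (J - m) (l + 3))
    (hv : (2 ^ v : ℤ) ∣ ρ (J - m) (l + 3)) (hv' : ¬ (2 ^ (v + 1) : ℤ) ∣ ρ (J - m) (l + 3))
    (hwin : 20 * (W + rr K1 B R + 1) ≤ v) (hTm : T + rr K1 B R ≤ m)
    (hK : ∀ t, 1 ≤ t → t ≤ T → ∀ x ≤ rr K1 B R, ∀ h, Q J B ρ (m - t - x) h ≤ K) :
    Q J B ρ m l ≤ K * (2 * (1 - c0 / 2) ^ R + 2 * (v + 1) / (W:ℝ) ^ 2 +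
      R * (15 / 2 * W / K1 + 15 / 2 * B * rr K1 B R) * (2 / √(v + 1))) +
        (49 / 81) ^ T * (8 / 7) ^ v := by
  classical
  have hc0 := c0_pos
  have hc1 := c0_lt
  set lam := l + 3 + v with hlam
  set G : ℕ → ℝ := fun i => if Safe J B ρ K1 R (J - m) lam i then (1 - c0 / 2) ^ R * K else K
    with hG
  have hG0 : ∀ i, 0 ≤ G i := fun i => by
    simp only [hG]
    split_ifs
    · exact mul_nonneg (pow_nonneg (by linarith) _) hK0
    · exact hK0
  have h1 := exit_bound (J := J) (B := B) (ρ := ρ) T m l v G hG0 (by omega) ?_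
  · refine h1.trans (add_le_add ?_ le_rfl)
    -- three classes of times
    set S1 := (Icc 1 T).filter fun i => v + 4 * W < 4 * i ∨ 4 * i + 4 * W < v with hS1
    set S2 := (Icc 1 T).filter fun i => (4 * i ≤ v + 4 * W ∧ v ≤ 4 * i + 4 * W ∧
      ¬ Safe J B ρ K1 R (J - m) lam i) with hS2
    have hterm : ∀ i ∈ Icc 1 T, ex v i * G i ≤ ex v i * ((1 - c0 / 2) ^ R * K) +
        (if i ∈ S1 then ex v i * K else 0) + (if i ∈ S2 then ex v i * K else 0) := by
      intro i hi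
      have he := ex_nonneg v i
      have hp : 0 ≤ ex v i * ((1 - c0 / 2) ^ R * K) :=
        mul_nonneg he (mul_nonneg (pow_nonneg (by linarith) _) hK0)
      have hq : 0 ≤ ex v i * K := mul_nonneg he hK0
      by_cases hsafe : Safe J B ρ K1 R (J - m) lam i
      · have : G i = (1 - c0 / 2) ^ R * K := by simp only [hG, if_pos hsafe]
        rw [this]
        split_ifs <;> linarith
      · have hGi : G i = K := by simp only [hG, if_neg hsafe]
        rw [hGi]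
        by_cases hi1 : i ∈ S1
        · rw [if_pos hi1]
          split_ifs <;> linarith
        · have hi2 : i ∈ S2 := by
            rw [hS1, mem_filter] at hi1
            rw [hS2, mem_filter]
            refine ⟨hi, ?_, ?_, hsafe⟩ <;>
            · by_contra hcon
              exact hi1 ⟨hi, by omega⟩
          rw [if_neg hi1, if_pos hi2]
          linarith
    refine (sum_le_sum hterm).trans ?_
    rw [sum_add_distrib, sum_add_distrib, ← sum_mul]
    have hpos : ∀ i ∈ Icc 1 T, 1 ≤ i := fun i hi => (mem_Icc.1 hi).1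
    have e1 : (∑ i ∈ Icc 1 T, ex v i) * ((1 - c0 / 2) ^ R * K) ≤ 2 * ((1 - c0 / 2) ^ R * K) :=
      mul_le_mul_of_nonneg_right (sum_ex_le v _ hpos)
        (mul_nonneg (pow_nonneg (by linarith) _) hK0)
    have e2 : ∑ i ∈ Icc 1 T, (if i ∈ S1 then ex v i * K else 0) ≤ 2 * (v + 1) / (W:ℝ) ^ 2 * K := by
      rw [← sum_filter]
      have h2 : (Icc 1 T).filter (· ∈ S1) ⊆ S1 := fun i hi => (mem_filter.1 hi).2
      refine (sum_le_sum_of_subset_of_nonneg h2 fun i _ _ => mul_nonneg (ex_nonneg _ _) hK0).trans ?_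
      rw [← sum_mul]
      refine mul_le_mul_of_nonneg_right (sum_ex_tail v W hW S1 ?_ ?_) hK0
      · intro i hi; exact hpos i (mem_filter.1 hi).1
      · intro i hi; exact (mem_filter.1 hi).2
    have e3 : ∑ i ∈ Icc 1 T, (if i ∈ S2 then ex v i * K else 0) ≤
        R * (15 / 2 * W / K1 + 15 / 2 * B * rr K1 B R) * (2 / √(v + 1)) * K := by
      rw [← sum_filter]
      have h2 : (Icc 1 T).filter (· ∈ S2) ⊆ S2 := fun i hi => (mem_filter.1 hi).2
      refine (sum_le_sum_of_subset_of_nonneg h2 fun i _ _ => mul_nonneg (ex_nonneg _ _) hK0).trans ?_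
      rw [← sum_mul]
      refine mul_le_mul_of_nonneg_right ?_ hK0
      refine (sum_le_sum fun i _ => ex_le v i).trans ?_
      rw [sum_const, nsmul_eq_mul]
      refine mul_le_mul_of_nonneg_right ?_ (by positivity)
      refine unsafe_card hT hB hK1 hW hbl hv hv' hwin S2 fun t ht => ?_
      exact (mem_filter.1 ht).2
    linarith
  · intro i hi1 hi2 h hh hh'
    simp only [hG]
    split_ifs with hsafe
    · exact safe_bound hT hB hK1 hK0 hm (by omega) hsafe (hK i hi1 hi2) h hh hh'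
    · have := hK i hi1 hi2 0 (Nat.zero_le _) (l + v + h)
      simpa using this

end Pool.Agent.Lib.MP_0a5adf_nt.TAO.H2
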