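import Pool.Agent.Lib.MP_0a5adf_nt.TAO.H2.Tab

/-!
# TAO+ part (A): the exit decomposition
-/

open Finset

namespace Pool.Agent.Lib.MP_0a5adf_nt.TAO.H2

/-- The probability that the walk leaves `[0, D]` at step `i`. -/
noncomputable def ex (D i : ℕ) : ℝ := ((D + 1).choose (2 * i - 1) : ℝ) / 2 ^ D

theorem ex_nonneg (D i : ℕ) : 0 ≤ ex D i := by
  unfold ex; positivity

theorem hockey (n r : ℕ) : ∑ j ∈ range (n + 1), j.choose r = (n + 1).choose (r + 1) := by
  induction n with
  | zero =>
    rcases Nat.eq_zero_or_pos r with h | h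
    · subst h; simp
    · rw [Nat.choose_eq_zero_of_lt (show 0 + 1 < r + 1 by omega)]
      simp [Nat.choose_eq_zero_of_lt h]
  | succ n ih =>
    rw [sum_range_succ, ih, Nat.choose_succ_succ' (n + 1) r]
    omega

theorem hockey2 (n r : ℕ) : ∑ j ∈ range (n + 1), (n - j) * j.choose r = (n + 1).choose (r + 2) := by
  induction n with
  | zero =>
    rw [Nat.choose_eq_zero_of_lt (show 0 + 1 < r + 2 by omega)]
    simp
  | succ n ih =>
    rw [sum_range_succ, Nat.sub_self, zero_mul, add_zero]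
    have h1 : ∑ j ∈ range (n + 1), (n + 1 - j) * j.choose r =
        ∑ j ∈ range (n + 1), ((n - j) * j.choose r + j.choose r) := by
      refine sum_congr rfl fun j hj => ?_
      rw [mem_range] at hj
      have h2 : n + 1 - j = n - j + 1 := by omega
      rw [h2]
      ring
    have h3 := Nat.choose_succ_succ' (n + 1) (r + 1)
    rw [show r + 1 + 1 = r + 2 from rfl] at h3
    rw [h1, sum_add_distrib, ih, hockey, h3]
    omega

theorem sum_ex (B D i : ℕ) (hi : 1 ≤ i) :
    ∑ b ∈ (Icc 2 B).filter (· ≤ D), p b * ex (D - b) i ≤ ex D (i + 1) := by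
  have h1 : ∀ b ∈ (Icc 2 B).filter (· ≤ D), p b * ex (D - b) i =
      (((b - 1) * (D - (b - 1)).choose (2 * i - 1) : ℕ) : ℝ) / 2 ^ D := by
    intro b hb
    simp only [mem_filter, mem_Icc] at hb
    have h2 : D - b + 1 = D - (b - 1) := by omega
    have h3 : (2:ℝ) ^ D = 2 ^ b * 2 ^ (D - b) := by rw [← pow_add]; congr 1; omega
    rw [p, ex, h2, h3]
    push_cast [Nat.cast_sub (show 1 ≤ b by omega)]
    field_simp
  rw [sum_congr rfl h1, ← sum_div, ← Nat.cast_sum, ex]
  have h2 : 2 * (i + 1) - 1 = 2 * i - 1 + 2 := by omega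
  rw [h2, ← hockey2 D (2 * i - 1)]
  gcongr
  have h3 : ∑ b ∈ (Icc 2 B).filter (· ≤ D), (b - 1) * (D - (b - 1)).choose (2 * i - 1) =
      ∑ j ∈ ((Icc 2 B).filter (· ≤ D)).image (fun b => D - (b - 1)),
        (D - j) * j.choose (2 * i - 1) := by
    rw [sum_image]
    · refine sum_congr rfl fun b hb => ?_
      simp only [mem_filter, mem_Icc] at hb
      rw [show D - (D - (b - 1)) = b - 1 by omega]
    · intro b hb b' hb' h
      rw [mem_coe, mem_filter, mem_Icc] at hb hb'
      simp only at h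
      omega
  rw [h3]
  refine sum_le_sum_of_subset ?_
  intro j hj
  simp only [mem_image, mem_filter, mem_Icc] at hj
  obtain ⟨b, hb, rfl⟩ := hj
  rw [mem_range]
  omega

theorem ex_one (D : ℕ) : ex D 1 = (D + 1) / 2 ^ D := by
  simp [ex]

/-- The geometric part. -/
theorem sum_geo (B : ℕ) : ∑ b ∈ Icc 2 B, ((b:ℝ) - 1) * (7 / 16) ^ b ≤ 49 / 81 := by
  rcases Nat.lt_or_ge B 1 with h | h
  · have : Icc 2 B = ∅ := Finset.Icc_eq_empty (by omega)
    rw [this, sum_empty]
    norm_num
  have h0 : Icc 2 B = Ioc 1 B := by ext; simp; omega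
  have h1 : ∀ B : ℕ, 1 ≤ B → ∑ b ∈ Ioc 1 B, ((b:ℝ) - 1) * (7 / 16) ^ b =
      49 / 81 - (7 / 16) ^ B * (7 * B / 9 + 49 / 81) := by
    intro B hB
    induction B, hB using Nat.le_induction with
    | base => norm_num
    | succ B hB ih =>
      rw [Finset.sum_Ioc_succ_top hB, ih]
      push_cast
      ring
  rw [h0, h1 B h]
  have : (0:ℝ) ≤ (7 / 16) ^ B * (7 * B / 9 + 49 / 81) := by positivity
  linarith

variable {J B : ℕ} {ρ : ℕ → ℕ → ℤ}

/-- The exit bound: `G i` bounds the states after an exit at step `i`. -/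
theorem exit_bound : ∀ k m l D (G : ℕ → ℝ), (∀ i, 0 ≤ G i) → k ≤ m →
    (∀ i, 1 ≤ i → i ≤ k → ∀ h, 1 ≤ h → h ≤ B → Q J B ρ (m - i) (l + D + h) ≤ G i) →
    Q J B ρ m l ≤ (∑ i ∈ Icc 1 k, ex D i * G i) + (49 / 81) ^ k * (8 / 7) ^ D := by
  intro k
  induction k with
  | zero =>
    intro m l D G _ _ _
    have h1 : (1:ℝ) ≤ (8 / 7) ^ D := one_le_pow₀ (by norm_num)
    simp only [pow_zero, one_mul]
    have h2 := Q_le_one (J := J) (B := B) (ρ := ρ) m l
    simp
    linarith
  | succ k ih =>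
    intro m l D G hG hkm hGi
    obtain ⟨n, rfl⟩ : ∃ n, m = n + 1 := ⟨m - 1, by omega⟩
    refine (Q_step n l).trans ?_
    have hG1 : ∀ b, 2 ≤ b → b ≤ B → D < b → Q J B ρ n (l + b) ≤ G 1 := by
      intro b hb hb' hD
      have h1 := hGi 1 le_rfl (by omega) (b - D) (by omega) (by omega)
      rw [show l + D + (b - D) = l + b by omega, Nat.add_sub_cancel] at h1
      exact h1
    have hIH : ∀ b, 2 ≤ b → b ≤ D → Q J B ρ n (l + b) ≤
        (∑ i ∈ Icc 1 k, ex (D - b) i * G (i + 1)) + (49 / 81) ^ k * (8 / 7) ^ (D - b) := by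
      intro b hb hb'
      refine ih n (l + b) (D - b) (fun i => G (i + 1)) (fun i => hG _) (by omega) ?_
      intro i hi1 hi2 h hh hh'
      have h1 := hGi (i + 1) (by omega) (by omega) h hh hh'
      rw [show l + b + (D - b) + h = l + D + h by omega,
        show n - i = n + 1 - (i + 1) by omega]
      exact h1
    rw [← sum_filter_add_sum_filter_not (Icc 2 B) (· ≤ D)]
    have hA : ∑ b ∈ (Icc 2 B).filter (¬ · ≤ D), p b * Q J B ρ n (l + b) ≤ ex D 1 * G 1 := by
      have h1 : ∑ b ∈ (Icc 2 B).filter (¬ · ≤ D), p b * Q J B ρ n (l + b) ≤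
          (∑ b ∈ (Icc 2 B).filter (¬ · ≤ D), p b) * G 1 := by
        rw [sum_mul]
        refine sum_le_sum fun b hb => ?_
        simp only [mem_filter, mem_Icc] at hb
        exact mul_le_mul_of_nonneg_left (hG1 b hb.1.1 hb.1.2 (by omega)) (p_nonneg (by omega))
      refine h1.trans (mul_le_mul_of_nonneg_right ?_ (hG 1))
      rw [ex_one]
      rcases le_total D B with h2 | h2
      · refine le_trans ?_ (sum_p_le h2)
        refine sum_le_sum_of_subset_of_nonneg ?_ fun b hb _ => p_nonneg (by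
          have := (mem_Ioc.1 hb).1; omega)
        intro b hb
        simp only [mem_filter, mem_Icc] at hb
        rw [mem_Ioc]
        omega
      · have h3 : (Icc 2 B).filter (¬ · ≤ D) = ∅ := by
          ext b
          simp only [mem_filter, mem_Icc, notMem_empty, iff_false]
          omega
        rw [h3, sum_empty]
        positivity
    have hBB : ∑ b ∈ (Icc 2 B).filter (· ≤ D), p b * Q J B ρ n (l + b) ≤
        (∑ i ∈ Icc 1 k, ex D (i + 1) * G (i + 1)) + (49 / 81) ^ (k + 1) * (8 / 7) ^ D := by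
      have h1 : ∑ b ∈ (Icc 2 B).filter (· ≤ D), p b * Q J B ρ n (l + b) ≤
          ∑ b ∈ (Icc 2 B).filter (· ≤ D), ((∑ i ∈ Icc 1 k, (p b * ex (D - b) i) * G (i + 1)) +
            p b * ((49 / 81) ^ k * (8 / 7) ^ (D - b))) := by
        refine sum_le_sum fun b hb => ?_
        simp only [mem_filter, mem_Icc] at hb
        refine (mul_le_mul_of_nonneg_left (hIH b hb.1.1 hb.2) (p_nonneg (by omega))).trans
          (le_of_eq ?_)
        rw [mul_add, mul_sum]
        congr 1
        exact sum_congr rfl fun i _ => by ring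
      refine h1.trans ?_
      rw [sum_add_distrib, sum_comm]
      refine add_le_add (sum_le_sum fun i hi => ?_) ?_
      · rw [← sum_mul]
        exact mul_le_mul_of_nonneg_right (sum_ex B D i (mem_Icc.1 hi).1) (hG _)
      · have h2 : ∀ b ∈ (Icc 2 B).filter (· ≤ D), p b * ((49 / 81) ^ k * (8 / 7) ^ (D - b)) =
            ((b:ℝ) - 1) * (7 / 16) ^ b * ((49 / 81) ^ k * (8 / 7) ^ D) := by
          intro b hb
          simp only [mem_filter, mem_Icc] at hb
          have h3 : ((8:ℝ) / 7) ^ D = (8 / 7) ^ b * (8 / 7) ^ (D - b) := by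
            rw [← pow_add]; congr 1; omega
          have h4 : ((7:ℝ) / 16) ^ b * (8 / 7) ^ b = 1 / 2 ^ b := by
            rw [← mul_pow, one_div, ← inv_pow]
            norm_num
          rw [h3, p]
          calc ((b:ℝ) - 1) / 2 ^ b * ((49 / 81) ^ k * (8 / 7) ^ (D - b)) =
              ((b:ℝ) - 1) * (1 / 2 ^ b) * ((49 / 81) ^ k * (8 / 7) ^ (D - b)) := by ring
            _ = _ := by rw [← h4]; ring
        rw [sum_congr rfl h2, ← sum_mul]
        have h5 : ∑ b ∈ (Icc 2 B).filter (· ≤ D), ((b:ℝ) - 1) * (7 / 16) ^ b ≤ 49 / 81 := by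
          refine le_trans ?_ (sum_geo B)
          refine sum_le_sum_of_subset_of_nonneg (filter_subset _ _) fun b hb _ => ?_
          have h6 : (2:ℝ) ≤ b := by exact_mod_cast (mem_Icc.1 hb).1
          have h7 : (0:ℝ) ≤ (7 / 16) ^ b := by positivity
          exact mul_nonneg (by linarith) h7
        refine (mul_le_mul_of_nonneg_right h5 (by positivity)).trans (le_of_eq ?_)
        ring
    have hsum : ∑ i ∈ Icc 1 (k + 1), ex D i * G i =
        ex D 1 * G 1 + ∑ i ∈ Icc 1 k, ex D (i + 1) * G (i + 1) := by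
      have h1 : Icc 1 (k + 1) = insert 1 ((Icc 1 k).image (· + 1)) := by
        ext x
        simp only [mem_Icc, mem_insert, mem_image]
        constructor
        · intro hx
          by_cases hx1 : x = 1
          · exact Or.inl hx1
          · exact Or.inr ⟨x - 1, by omega, by omega⟩
        · rintro (rfl | ⟨y, hy, rfl⟩) <;> omega
      rw [h1, sum_insert, sum_image]
      · intro a _ b _ h
        simpa using h
      · simp
    rw [hsum]
    linarith

end Pool.Agent.Lib.MP_0a5adf_nt.TAO.H2
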