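import Pool.Agent.Lib.MP_0a5adf_nt.TAO.H2.Stage

/-!
# TAO+ part (A): the pair lemma and the number of unsafe times
-/

open Finset

namespace Pool.Agent.Lib.MP_0a5adf_nt.TAO.H2

variable {J B : ℕ} {ρ : ℕ → ℕ → ℤ}

/-- Two columns with deep black points at small heights above the exit line. `lam` is the height of the
exit line, `xo = ρ j lam` is odd. -/
theorem pair (hT : Tab J ρ) {j lam y1 y2 h1 h2 H σ : ℕ} (hy : y1 ≤ y2)
    (hxo : ¬ (2:ℤ) ∣ ρ j lam) (hsm : 2 * (9 ^ y2 * |ρ j lam|) ≤ 9 ^ J)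
    (hh1 : 1 ≤ h1) (hh1' : h1 ≤ H) (hh2' : h2 ≤ H)
    (_hb1 : Black J ρ (j + y1) (lam + h1)) (hb2 : Black J ρ (j + y2) (lam + h2))
    (hd1 : (2 ^ σ : ℤ) ∣ ρ (j + y1) (lam + h1)) (hd2 : (2 ^ σ : ℤ) ∣ ρ (j + y2) (lam + h2))
    (hHD : H < y2 - y1) (hDσ : 5 * (y2 - y1) ≤ σ) : False := by
  obtain ⟨D, rfl⟩ : ∃ D, y2 = y1 + D := ⟨y2 - y1, by omega⟩
  have hD : y1 + D - y1 = D := by omega
  rw [hD] at hHD hDσ
  set r1 := ρ (j + y1) (lam + h1) with hr1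
  set r2 := ρ (j + (y1 + D)) (lam + h2) with hr2
  have hq : (0:ℤ) < 9 ^ J := by positivity
  obtain ⟨w1, hw1⟩ : (2 ^ (4 * D) : ℤ) ∣ r1 := (pow_dvd_pow 2 (by omega)).trans hd1
  obtain ⟨w2, hw2⟩ : (2 ^ (h1 + 4 * D - h2) : ℤ) ∣ r2 := (pow_dvd_pow 2 (by omega)).trans hd2
  -- (a)
  have ha : ρ (j + y1 + D) (lam + h1 + 4 * D) = 9 ^ D * w1 := by
    refine hT.exact (by rw [← hr1, hw1]; ring) ?_
    have e1 : |r1| = 16 ^ D * |w1| := by
      rw [hw1, abs_mul, abs_pow, abs_two, pow_mul]; norm_num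
    have e2 := hT.bd (j + y1) (lam + h1)
    rw [← hr1, e1] at e2
    rw [abs_mul, abs_pow, abs_of_pos (show (0:ℤ) < 9 by norm_num)]
    have e3 : (9:ℤ) ^ D ≤ 16 ^ D := pow_le_pow_left₀ (by norm_num) (by norm_num) D
    have e4 := abs_nonneg w1
    nlinarith
  -- (b)
  have hb : ρ (j + (y1 + D) + 0) (lam + h2 + (h1 + 4 * D - h2)) = w2 := by
    refine hT.exact (by rw [← hr2, hw2]; ring) ?_
    have e1 : |r2| = 2 ^ (h1 + 4 * D - h2) * |w2| := by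
      rw [hw2, abs_mul, abs_pow, abs_two]
    have e2 := hT.bd (j + (y1 + D)) (lam + h2)
    rw [← hr2, e1] at e2
    have e3 : (1:ℤ) ≤ 2 ^ (h1 + 4 * D - h2) := one_le_pow₀ (by norm_num)
    have e4 := abs_nonneg w2
    nlinarith
  have hab : 9 ^ D * w1 = w2 := by
    rw [← ha, ← hb]
    congr 1 <;> omega
  -- `9^D 2^h1 r1 = 2^h2 r2`
  have hc : 9 ^ D * (2 ^ h1 * r1) = 2 ^ h2 * r2 := by
    rw [hw1, hw2, ← hab]
    have e1 : (2:ℤ) ^ h2 * 2 ^ (h1 + 4 * D - h2) = 2 ^ h1 * 2 ^ (4 * D) := by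
      rw [← pow_add, ← pow_add]; congr 1; omega
    calc 9 ^ D * (2 ^ h1 * (2 ^ (4 * D) * w1)) = (2 ^ h1 * 2 ^ (4 * D)) * (9 ^ D * w1) := by ring
      _ = (2 ^ h2 * 2 ^ (h1 + 4 * D - h2)) * (9 ^ D * w1) := by rw [e1]
      _ = _ := by ring
  -- the differences are multiples of `q`
  set x := ρ j lam with hx
  have hdv := hT.cong j lam y1 h1
  rw [← hr1, ← hx] at hdv
  have hne : 2 ^ h1 * r1 - 9 ^ y1 * x ≠ 0 := by
    intro h0
    apply hxo
    have e1 : (2:ℤ) ∣ 9 ^ y1 * x := by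
      have e2 : 9 ^ y1 * x = 2 ^ h1 * r1 := by linarith
      rw [e2]
      exact (dvd_pow_self 2 (by omega)).mul_right _
    have e2 : IsCoprime (2:ℤ) (9 ^ y1) := by
      refine IsCoprime.pow_right ?_
      exact ⟨-4, 1, by norm_num⟩
    exact e2.dvd_of_dvd_mul_left e1
  have hge : (9:ℤ) ^ J ≤ |2 ^ h1 * r1 - 9 ^ y1 * x| :=
    Int.le_of_dvd (abs_pos.2 hne) ((dvd_abs _ _).2 hdv)
  have heq : 2 ^ h2 * r2 - 9 ^ (y1 + D) * x = 9 ^ D * (2 ^ h1 * r1 - 9 ^ y1 * x) := by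
    rw [mul_sub, hc]; ring
  have hup : |2 ^ h2 * r2 - 9 ^ (y1 + D) * x| ≤ 2 ^ h2 * |r2| + 9 ^ (y1 + D) * |x| := by
    have e1 := abs_sub (2 ^ h2 * r2) (9 ^ (y1 + D) * x)
    rwa [abs_mul, abs_mul, abs_pow, abs_pow, abs_two,
      abs_of_pos (show (0:ℤ) < 9 by norm_num)] at e1
  rw [heq, abs_mul, abs_pow, abs_of_pos (show (0:ℤ) < 9 by norm_num)] at hup
  have h9 : (2:ℤ) ^ h2 * 9 ≤ 9 ^ D := by
    have e1 : (9:ℤ) ^ D = 9 ^ (D - 1) * 9 := by rw [← pow_succ]; congr 1; omega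
    have e2 : (2:ℤ) ^ h2 ≤ 9 ^ (D - 1) :=
      (pow_le_pow_right₀ (by norm_num) (show h2 ≤ D - 1 by omega)).trans
        (pow_le_pow_left₀ (by norm_num) (by norm_num) _)
    rw [e1]
    linarith
  have h40 : 40 * |r2| ≤ 9 ^ J := hb2
  have hp2 : (0:ℤ) < 2 ^ h2 := by positivity
  have e5 : 9 ^ D * 9 ^ J ≤ 9 ^ D * |2 ^ h1 * r1 - 9 ^ y1 * x| :=
    mul_le_mul_of_nonneg_left hge (by positivity)
  have e6 : 2 ^ h2 * (40 * |r2|) ≤ 2 ^ h2 * 9 ^ J := mul_le_mul_of_nonneg_left h40 hp2.le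
  have e7 : (2:ℤ) ^ h2 * 9 * 9 ^ J ≤ 9 ^ D * 9 ^ J := mul_le_mul_of_nonneg_right h9 hq.le
  have e8 : (1:ℤ) ≤ 2 ^ h2 := one_le_pow₀ (by norm_num)
  have e9 : (1:ℤ) * 9 ^ J ≤ 2 ^ h2 * 9 ^ J := mul_le_mul_of_nonneg_right e8 hq.le
  nlinarith

/-- Counting the times which are close to a bad column. -/
theorem count {Bd : ℕ → Prop} {Y H s α β r : ℕ} (hs : 1 ≤ s)
    (hpair : ∀ y1 y2, y1 ≤ y2 → y2 ≤ Y → Bd y1 → Bd y2 → y2 - y1 < s → y2 - y1 ≤ H)
    (hβ : β + r ≤ Y) (S : Finset ℕ) (hS : ∀ t ∈ S, α ≤ t ∧ t ≤ β ∧ ∃ x ≤ r, Bd (t + x)) :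
    #S ≤ ((β + r - α) / s + 2) * (H + r + 1) := by
  classical
  have hT : ∀ k, ∃ T : Finset ℕ, #T ≤ H + r + 1 ∧ ∀ t ∈ S, ∀ x ≤ r, Bd (t + x) → (t + x) / s = k →
      t ∈ T := by
    intro k
    by_cases hex : ∃ y, Bd y ∧ y ≤ Y ∧ y / s = k
    · set y0 := Nat.find hex with hy0
      obtain ⟨hy1, hy2, hy3⟩ := Nat.find_spec hex
      rw [← hy0] at hy1 hy2 hy3
      refine ⟨Icc (y0 - r) (y0 + H), ?_, ?_⟩
      · rw [Nat.card_Icc]; omega
      · intro t ht x hx hbd hk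
        have h1 := (hS t ht).2.1
        have h2 : y0 ≤ t + x := Nat.find_min' hex ⟨hbd, by omega, hk⟩
        have h3 : t + x - y0 < s := by
          have e1 := Nat.div_add_mod (t + x) s
          have e2 := Nat.div_add_mod y0 s
          have e3 := Nat.mod_lt (t + x) (show s > 0 by omega)
          rw [hk] at e1
          rw [hy3] at e2
          omega
        have h4 := hpair y0 (t + x) h2 (by omega) hy1 hbd h3
        rw [mem_Icc]
        omega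
    · refine ⟨∅, by simp, ?_⟩
      intro t ht x hx hbd hk
      have h1 := (hS t ht).2.1
      exact (hex ⟨t + x, hbd, by omega, hk⟩).elim
  choose T hT1 hT2 using hT
  have hsub : S ⊆ (Icc (α / s) ((β + r) / s)).biUnion T := by
    intro t ht
    obtain ⟨h1, h2, x, hx, hbd⟩ := hS t ht
    rw [mem_biUnion]
    refine ⟨(t + x) / s, mem_Icc.2 ⟨Nat.div_le_div_right (by omega),
      Nat.div_le_div_right (by omega)⟩, hT2 _ t ht x hx hbd rfl⟩
  refine (card_le_card hsub).trans (card_biUnion_le.trans ?_)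
  refine (sum_le_sum fun k _ => hT1 k).trans ?_
  rw [sum_const, smul_eq_mul]
  refine Nat.mul_le_mul_right _ ?_
  rw [Nat.card_Icc]
  have key : ∀ x y z : ℕ, x ≤ y + z + 1 → x + 1 - y ≤ z + 2 := by omega
  rcases le_total α (β + r) with h | h
  · have h1 : (β + r) / s ≤ α / s + (β + r - α) / s + 1 := by
      have e1 : β + r = α + (β + r - α) := by omega
      have e2 : (α + (β + r - α)) / s ≤ α / s + (β + r - α) / s + 1 := by
        rw [Nat.div_le_iff_le_mul_add_pred hs]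
        have e3 := Nat.div_add_mod α s
        have e4 := Nat.div_add_mod (β + r - α) s
        have e5 := Nat.mod_lt α (show s > 0 by omega)
        have e6 := Nat.mod_lt (β + r - α) (show s > 0 by omega)
        have e7 : s * (α / s + (β + r - α) / s + 1) =
            s * (α / s) + s * ((β + r - α) / s) + s := by ring
        omega
      rwa [← e1] at e2
    exact key _ _ _ h1
  · have h1 : (β + r) / s ≤ α / s := Nat.div_le_div_right h
    exact key _ _ _ (h1.trans (by rw [Nat.add_assoc]; exact Nat.le_add_right _ _))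

end Pool.Agent.Lib.MP_0a5adf_nt.TAO.H2
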