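import Pool.Agent.Lib.MP_0a5adf_nt.TAO.H2.Tab

/-!
# TAO+ part (A): the stage lemma (A2)
-/

open Finset

namespace Pool.Agent.Lib.MP_0a5adf_nt.TAO.H2

/-- The gains. -/
noncomputable def gn (v b : ℕ) : ℝ := if b ≤ v then c0 / 2 else if b ≤ v + 4 then c0 else 0

theorem sum_gain {B : ℕ} (hB : 1 ≤ B) (v : ℕ) :
    ∑ b ∈ Icc 2 B, p b * (1 - gn v b) ≤ 1 - c0 / 2 := by
  have hc0 := c0_pos
  have hc1 := c0_lt
  have e0 : ∑ b ∈ Icc 2 B, p b * (1 - gn v b) = ∑ b ∈ Ioc 0 B, p b * (1 - gn v b) := by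
    have h1 : Icc 2 B = Ioc 1 B := by ext; simp; omega
    rw [h1, ← sum_Ioc_consecutive _ (show 0 ≤ 1 by omega) hB]
    have h2 : Ioc 0 1 = {1} := by decide
    rw [h2, sum_singleton]
    have h3 : p 1 = 0 := by norm_num [p]
    rw [h3, zero_mul, zero_add]
  rw [e0]
  have hs1 : ∀ k, k ≤ v → ∑ b ∈ Ioc 0 k, p b * (1 - gn v b) = (∑ b ∈ Ioc 0 k, p b) * (1 - c0 / 2) := by
    intro k hk
    rw [sum_mul]
    refine sum_congr rfl fun b hb => ?_
    rw [mem_Ioc] at hb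
    rw [gn, if_pos (by omega)]
  have hs2 : ∀ k, k ≤ v + 4 → ∑ b ∈ Ioc v k, p b * (1 - gn v b) = (∑ b ∈ Ioc v k, p b) * (1 - c0) := by
    intro k hk
    rw [sum_mul]
    refine sum_congr rfl fun b hb => ?_
    rw [mem_Ioc] at hb
    rw [gn, if_neg (by omega), if_pos (by omega)]
  have hs3 : ∀ k, ∑ b ∈ Ioc (v + 4) k, p b * (1 - gn v b) = ∑ b ∈ Ioc (v + 4) k, p b := by
    intro k
    refine sum_congr rfl fun b hb => ?_
    rw [mem_Ioc] at hb
    rw [gn, if_neg (by omega), if_neg (by omega), sub_zero, mul_one]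
  have hn : ∀ k k', 0 ≤ ∑ b ∈ Ioc k k', p b := fun k k' =>
    sum_nonneg fun b hb => p_nonneg (by have := (mem_Ioc.1 hb).1; omega)
  have ht : ∀ k, ∑ b ∈ Ioc 0 k, p b ≤ 1 := fun k => by
    refine (sum_p_le (Nat.zero_le k)).trans ?_
    norm_num
  rcases le_total B v with h | h
  · rw [hs1 B h]
    have := ht B
    nlinarith
  rw [← sum_Ioc_consecutive _ (Nat.zero_le v) h, hs1 v le_rfl]
  rcases le_total B (v + 4) with h' | h'
  · rw [hs2 B h']
    have h1 := sum_Ioc_consecutive p (Nat.zero_le v) h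
    have h2 := ht B
    have h3 := hn v B
    nlinarith
  · rw [← sum_Ioc_consecutive _ (show v ≤ v + 4 by omega) h', hs2 _ le_rfl, hs3]
    have h1 := sum_p (Nat.zero_le v)
    have h2 := sum_p (show v ≤ v + 4 by omega)
    have h3 := sum_p_le h'
    rw [h1, h2]
    push_cast at h3 ⊢
    set X : ℝ := ((v:ℝ) + 1) / 2 ^ v with hX
    have hY : ((v:ℝ) + 4 + 1) / 2 ^ (v + 4) ≤ X / 2 := by
      rw [hX, pow_add, div_div, div_le_div_iff₀ (by positivity) (by positivity)]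
      have : (0:ℝ) < 2 ^ v := by positivity
      have hv : (0:ℝ) ≤ v := Nat.cast_nonneg v
      nlinarith
    set Y : ℝ := ((v:ℝ) + 4 + 1) / 2 ^ (v + 4) with hY'
    simp only [zero_add, pow_zero, div_one]
    nlinarith

variable {J B : ℕ} {ρ : ℕ → ℕ → ℤ}

/-- The next candidate, exact case. -/
theorem next_exact (hT : Tab J ρ) {j l v b : ℕ} (hb2 : 2 ≤ b) (hbv : b ≤ v)
    (hbl : Black J ρ j l) (hv : (2 ^ v : ℤ) ∣ ρ j l) (hv' : ¬ (2 ^ (v + 1) : ℤ) ∣ ρ j l) :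
    (2 ^ (v - b) : ℤ) ∣ ρ (j + 1) (l + b) ∧ ¬ (2 ^ (v - b + 1) : ℤ) ∣ ρ (j + 1) (l + b) := by
  obtain ⟨w, hw⟩ := hv
  have e1 : (2 ^ v : ℤ) = 2 ^ b * 2 ^ (v - b) := by rw [← pow_add]; congr 1; omega
  have hq : (0:ℤ) < 9 ^ J := by positivity
  have hex : ρ (j + 1) (l + b) = 9 * (2 ^ (v - b) * w) := by
    refine hT.exact (y := 1) (b := b) (by rw [hw, e1]; ring) ?_
    have h1 : |ρ j l| = 2 ^ b * |2 ^ (v - b) * w| := by
      rw [hw, e1, mul_assoc, abs_mul, abs_pow, abs_two]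
    have h2 : (4:ℤ) ≤ 2 ^ b := by
      calc (4:ℤ) = 2 ^ 2 := by norm_num
        _ ≤ 2 ^ b := pow_le_pow_right₀ (by norm_num) hb2
    have h3 : 40 * |ρ j l| ≤ 9 ^ J := hbl
    have h4 := abs_nonneg (2 ^ (v - b) * w)
    rw [abs_mul, abs_of_pos (show (0:ℤ) < 9 by norm_num)]
    nlinarith
  constructor
  · exact ⟨9 * w, by rw [hex]; ring⟩
  · rintro ⟨w', hw'⟩
    apply hv'
    have h1 : (9:ℤ) * w = 2 * w' := by
      have h2 : (2:ℤ) ^ (v - b) ≠ 0 := by positivity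
      apply mul_left_cancel₀ h2
      have h3 := hex.symm.trans hw'
      rw [pow_succ] at h3
      linarith
    have h2 : (2:ℤ) ∣ w := by omega
    obtain ⟨w'', hw''⟩ := h2
    exact ⟨w'', by rw [hw, hw'']; ring⟩

/-- The next candidate after a long step is white. -/
theorem next_white (hT : Tab J ρ) {j l v b : ℕ} (hbv : v < b) (hbv' : b ≤ v + 4)
    (hbl : Black J ρ j l) (hv : (2 ^ v : ℤ) ∣ ρ j l) (hv' : ¬ (2 ^ (v + 1) : ℤ) ∣ ρ j l) :
    ¬ Black J ρ (j + 1) (l + b) := by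
  intro hz
  obtain ⟨w, hw⟩ := hv
  have hq : (0:ℤ) < 9 ^ J := by positivity
  have h1 := hT.cong j l 1 b
  have e1 : (2 ^ b : ℤ) = 2 ^ v * 2 ^ (b - v) := by rw [← pow_add]; congr 1; omega
  have e2 : 2 ^ b * ρ (j + 1) (l + b) - 9 ^ 1 * ρ j l =
      2 ^ v * (2 ^ (b - v) * ρ (j + 1) (l + b) - 9 * w) := by rw [hw, e1]; ring
  rw [e2] at h1
  have h2 : IsCoprime (9 ^ J : ℤ) (2 ^ v) := by
    refine IsCoprime.pow ?_
    exact ⟨1, -4, by norm_num⟩
  have h3 := h2.dvd_of_dvd_mul_left h1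
  have h4 : 40 * |ρ (j + 1) (l + b)| ≤ 9 ^ J := hz
  have h5 : 40 * |w| ≤ 9 ^ J := by
    have h6 : 40 * |ρ j l| ≤ 9 ^ J := hbl
    have h7 : |ρ j l| = 2 ^ v * |w| := by rw [hw, abs_mul, abs_pow, abs_two]
    have h8 : (1:ℤ) ≤ 2 ^ v := one_le_pow₀ (by norm_num)
    have h9 := abs_nonneg w
    nlinarith
  have h6 : (2:ℤ) ^ (b - v) ≤ 16 := by
    calc (2:ℤ) ^ (b - v) ≤ 2 ^ 4 := pow_le_pow_right₀ (by norm_num) (by omega)
      _ = 16 := by norm_num
  have h7 : |2 ^ (b - v) * ρ (j + 1) (l + b) - 9 * w| < 9 ^ J := by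
    have h8 := abs_sub (2 ^ (b - v) * ρ (j + 1) (l + b)) (9 * w)
    rw [abs_mul, abs_mul, abs_pow, abs_two, abs_of_pos (show (0:ℤ) < 9 by norm_num)] at h8
    have h9 := abs_nonneg (ρ (j + 1) (l + b))
    nlinarith
  have h8 := Int.eq_zero_of_abs_lt_dvd h3 h7
  apply hv'
  have h9 : (2:ℤ) ^ (b - v) = 2 * 2 ^ (b - v - 1) := by
    rw [← pow_succ']; congr 1; omega
  have h10 : (2:ℤ) ∣ w := by
    have h11 : (2:ℤ) ∣ 9 * w := ⟨2 ^ (b - v - 1) * ρ (j + 1) (l + b), by rw [h9] at h8; linarith⟩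
    omega
  obtain ⟨w'', hw''⟩ := h10
  exact ⟨w'', by rw [hw, hw'']; ring⟩

/-- The stage lemma for a black candidate of depth `v`. -/
theorem stage_black (hT : Tab J ρ) (hB : 3 ≤ B) {K : ℝ} (hK : 0 ≤ K) : ∀ v m l, m ≤ J →
    v / 2 + 2 ≤ m → Black J ρ (J - m) (l + 3) → (2 ^ v : ℤ) ∣ ρ (J - m) (l + 3) →
    ¬ (2 ^ (v + 1) : ℤ) ∣ ρ (J - m) (l + 3) →
    (∀ x h, 1 ≤ x → x ≤ v / 2 + 2 → 2 * x ≤ h → h ≤ B * x → Q J B ρ (m - x) (l + h) ≤ K) →
    Q J B ρ m l ≤ (1 - c0 / 2) * K := by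
  have hc0 := c0_pos
  have hc1 := c0_lt
  intro v
  induction v using Nat.strong_induction_on with
  | _ v ih =>
  intro m l hmJ hvm hbl hv hv' hK'
  obtain ⟨n, rfl⟩ : ∃ n, m = n + 1 := ⟨m - 1, by omega⟩
  have hrow : J - (n + 1) + 1 = J - n := by omega
  have hstep : ∀ b ∈ Icc 2 B, p b * Q J B ρ n (l + b) ≤ p b * (1 - gn v b) * K := by
    intro b hb
    rw [mem_Icc] at hb
    rw [mul_assoc]
    refine mul_le_mul_of_nonneg_left ?_ (p_nonneg (by omega))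
    have hwhite : ¬ Black J ρ (J - n) (l + b + 3) → Q J B ρ n (l + b) ≤ (1 - c0) * K := by
      intro hw
      obtain ⟨k, rfl⟩ : ∃ k, n = k + 1 := ⟨n - 1, by omega⟩
      refine stage_white hT hB hK hw fun b' hb' hb'' => ?_
      have h1 := hK' 2 (b + b') (by omega) (by omega) (by omega) (by nlinarith)
      rw [← Nat.add_assoc] at h1
      exact h1
    by_cases h1 : b ≤ v
    · rw [gn, if_pos h1]
      by_cases hw : Black J ρ (J - n) (l + b + 3)
      · have h2 := next_exact hT hb.1 h1 hbl hv hv'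
        rw [hrow, show l + 3 + b = l + b + 3 by omega] at h2
        refine ih (v - b) (by omega) n (l + b) (by omega) (by omega) hw h2.1 h2.2 ?_
        intro x h hx1 hx2 hx3 hx4
        have h3 := hK' (x + 1) (b + h) (by omega) (by omega) (by omega) (by nlinarith)
        rw [← Nat.add_assoc, show n + 1 - (x + 1) = n - x by omega] at h3
        exact h3
      · refine (hwhite hw).trans (mul_le_mul_of_nonneg_right (by linarith) hK)
    by_cases h2 : b ≤ v + 4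
    · rw [gn, if_neg h1, if_pos h2]
      refine hwhite ?_
      have h3 := next_white hT (not_le.1 h1) h2 hbl hv hv'
      rwa [hrow, show l + 3 + b = l + b + 3 by omega] at h3
    · rw [gn, if_neg h1, if_neg h2, sub_zero, one_mul]
      have h3 := hK' 1 b le_rfl (by omega) (by omega) (by omega)
      exact h3
  refine (Q_step n l).trans ((sum_le_sum hstep).trans ?_)
  rw [← sum_mul]
  exact mul_le_mul_of_nonneg_right (sum_gain (by omega) v) hK

/-- The stage lemma: the candidate is white or its depth is less than `s`. -/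
theorem stage (hT : Tab J ρ) (hB : 3 ≤ B) {K : ℝ} (hK : 0 ≤ K) {s m l : ℕ} (hm : m ≤ J)
    (hs : s / 2 + 2 ≤ m)
    (hc : ¬ (Black J ρ (J - m) (l + 3) ∧ (2 ^ (s + 1) : ℤ) ∣ ρ (J - m) (l + 3)))
    (h : ∀ x h, 1 ≤ x → x ≤ s / 2 + 2 → 2 * x ≤ h → h ≤ B * x → Q J B ρ (m - x) (l + h) ≤ K) :
    Q J B ρ m l ≤ (1 - c0 / 2) * K := by
  have hc0 := c0_pos
  by_cases hb : Black J ρ (J - m) (l + 3)
  · have hne : ρ (J - m) (l + 3) ≠ 0 := hT.nz _ _ (by omega)
    have hex : ∃ v, (2 ^ v : ℤ) ∣ ρ (J - m) (l + 3) ∧ ¬ (2 ^ (v + 1) : ℤ) ∣ ρ (J - m) (l + 3) := by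
      by_contra hcon
      push Not at hcon
      have h1 : ∀ v, (2 ^ v : ℤ) ∣ ρ (J - m) (l + 3) := by
        intro v
        induction v with
        | zero => simp
        | succ v ih => exact hcon v ih
      have h2 := Int.le_of_dvd (abs_pos.2 hne) ((dvd_abs _ _).2 (h1 (ρ (J - m) (l + 3)).natAbs))
      have h3 : (ρ (J - m) (l + 3)).natAbs < 2 ^ (ρ (J - m) (l + 3)).natAbs := Nat.lt_two_pow_self
      have h4 : ((ρ (J - m) (l + 3)).natAbs : ℤ) < 2 ^ (ρ (J - m) (l + 3)).natAbs := by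
        exact_mod_cast h3
      rw [Int.natCast_natAbs] at h4
      linarith
    obtain ⟨v, hv, hv'⟩ := hex
    have hvs : v ≤ s := by
      by_contra hcon
      exact hc ⟨hb, (pow_dvd_pow 2 (by omega)).trans hv⟩
    have hvs2 : v / 2 ≤ s / 2 := Nat.div_le_div_right hvs
    exact stage_black hT hB hK v m l hm (by omega) hb hv hv' fun x h' h1 h2 h3 h4 =>
      h x h' h1 (by omega) h3 h4
  · obtain ⟨n, rfl⟩ : ∃ n, m = n + 1 := ⟨m - 1, by omega⟩
    refine (stage_white hT hB hK hb fun b h1 h2 => ?_).trans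
      (mul_le_mul_of_nonneg_right (by linarith) hK)
    exact h 1 b le_rfl (by omega) (by omega) (by omega)

end Pool.Agent.Lib.MP_0a5adf_nt.TAO.H2
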