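import Mathlib

/-!
# TAO+ part (A): the table of residues and the stage lemma

`ρ j l` is the signed residue of `9^j * 2ξ * 2^{-l}` modulo `9^J`; only the properties in `Tab` are
used.  `Q J B ρ m l` is the majorant of the characteristic function when `m` rows remain.
-/

open Finset

namespace Pool.Agent.Lib.MP_0a5adf_nt.TAO.H2

/-- The table of signed residues. -/
structure Tab (J : ℕ) (ρ : ℕ → ℕ → ℤ) : Prop where
  bd : ∀ j l, 2 * |ρ j l| < 9 ^ J
  up : ∀ j l, (9 ^ J : ℤ) ∣ 2 * ρ j (l + 1) - ρ j l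
  rt : ∀ j l, (9 ^ J : ℤ) ∣ ρ (j + 1) l - 9 * ρ j l
  nz : ∀ j l, j < J → ρ j l ≠ 0
  dv : ∀ j l, j ≤ J → (9 ^ j : ℤ) ∣ ρ j l

/-- Probabilities of the pair gaps. -/
noncomputable def p (b : ℕ) : ℝ := ((b : ℝ) - 1) / 2 ^ b

/-- The majorant. -/
noncomputable def Q (J B : ℕ) (ρ : ℕ → ℕ → ℤ) : ℕ → ℕ → ℝ
  | 0, _ => 1
  | m + 1, l => ∑ b ∈ Icc 2 B, p b *
      (if b = 3 then |Real.cos (Real.pi * ρ (J - (m + 1)) (l + 3) / 9 ^ J)| else 1) *
        Q J B ρ m (l + b)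

theorem p_nonneg {b : ℕ} (hb : 1 ≤ b) : 0 ≤ p b := by
  have : (1 : ℝ) ≤ b := by exact_mod_cast hb
  exact div_nonneg (by linarith) (by positivity)

theorem p_three : p 3 = 1 / 4 := by norm_num [p]

/-- Tails of the pair gaps. -/
theorem sum_p {k B : ℕ} (h : k ≤ B) : ∑ b ∈ Ioc k B, p b = (k + 1) / 2 ^ k - (B + 1) / 2 ^ B := by
  induction B, h using Nat.le_induction with
  | base => simp
  | succ B hB ih =>
    rw [Finset.sum_Ioc_succ_top hB, ih, p]
    push_cast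
    field_simp
    ring

theorem sum_p_le {k B : ℕ} (h : k ≤ B) : ∑ b ∈ Ioc k B, p b ≤ (k + 1) / 2 ^ k := by
  rw [sum_p h]
  have : (0:ℝ) ≤ (B + 1) / 2 ^ B := by positivity
  linarith

theorem sum_p_Icc {B : ℕ} : ∑ b ∈ Icc 2 B, p b ≤ 1 := by
  rcases Nat.lt_or_ge B 1 with h | h
  · have : Icc 2 B = ∅ := Finset.Icc_eq_empty (by omega)
    rw [this, sum_empty]
    norm_num
  · have : Icc 2 B = Ioc 1 B := by ext; simp; omega
    rw [this]
    refine (sum_p_le h).trans ?_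
    norm_num

variable {J B : ℕ} {ρ : ℕ → ℕ → ℤ}

theorem w_le (b : ℕ) (x : ℝ) : (if b = 3 then |Real.cos x| else 1) ≤ 1 := by
  split_ifs
  · exact Real.abs_cos_le_one _
  · exact le_rfl

theorem w_nonneg (b : ℕ) (x : ℝ) : 0 ≤ (if b = 3 then |Real.cos x| else 1) := by
  split_ifs
  · exact abs_nonneg _
  · norm_num

theorem Q_nonneg (m l : ℕ) : 0 ≤ Q J B ρ m l := by
  induction m generalizing l with
  | zero => simp [Q]
  | succ m ih =>
    rw [Q]
    refine sum_nonneg fun b hb => mul_nonneg (mul_nonneg (p_nonneg ?_) (w_nonneg _ _)) (ih _)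
    have := (mem_Icc.1 hb).1
    omega

/-- One step, forgetting the weights. -/
theorem Q_step (m l : ℕ) : Q J B ρ (m + 1) l ≤ ∑ b ∈ Icc 2 B, p b * Q J B ρ m (l + b) := by
  rw [Q]
  refine sum_le_sum fun b hb => ?_
  have h1 := p_nonneg (b := b) (by have := (mem_Icc.1 hb).1; omega)
  refine mul_le_mul_of_nonneg_right ?_ (Q_nonneg _ _)
  exact mul_le_of_le_one_right h1 (w_le _ _)

theorem Q_le_one (m l : ℕ) : Q J B ρ m l ≤ 1 := by
  induction m generalizing l with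
  | zero => simp [Q]
  | succ m ih =>
    refine (Q_step m l).trans ?_
    refine (sum_le_sum fun b hb => ?_).trans sum_p_Icc
    exact mul_le_of_le_one_right (p_nonneg (by have := (mem_Icc.1 hb).1; omega)) (ih _)

/-! ### Congruences -/

theorem Tab.cong (hT : Tab J ρ) (j l y b : ℕ) :
    (9 ^ J : ℤ) ∣ 2 ^ b * ρ (j + y) (l + b) - 9 ^ y * ρ j l := by
  have h1 : ∀ j, (9 ^ J : ℤ) ∣ 2 ^ b * ρ j (l + b) - ρ j l := by
    intro j
    induction b with
    | zero => simp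
    | succ b ih =>
      have h2 := (hT.up j (l + b)).mul_left (2 ^ b)
      have h3 := dvd_add h2 ih
      rw [← Nat.add_assoc]
      refine h3.trans (dvd_of_eq ?_)
      ring
  have h2 : (9 ^ J : ℤ) ∣ ρ (j + y) l - 9 ^ y * ρ j l := by
    induction y with
    | zero => simp
    | succ y ih =>
      have h3 := dvd_add (hT.rt (j + y) l) (ih.mul_left 9)
      rw [← Nat.add_assoc]
      refine h3.trans (dvd_of_eq ?_)
      ring
  refine (dvd_add (h1 (j + y)) h2).trans (dvd_of_eq ?_)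
  ring

/-- Exact values. -/
theorem Tab.exact (hT : Tab J ρ) {j l y b : ℕ} {z : ℤ} (h : 9 ^ y * ρ j l = 2 ^ b * z)
    (hz : 2 * |z| < 9 ^ J) : ρ (j + y) (l + b) = z := by
  have h1 := hT.cong j l y b
  rw [h, ← mul_sub] at h1
  have h2 : IsCoprime (9 ^ J : ℤ) (2 ^ b) := by
    refine IsCoprime.pow ?_
    exact ⟨1, -4, by norm_num⟩
  have h3 := h2.dvd_of_dvd_mul_left h1
  have h4 : |ρ (j + y) (l + b) - z| < 9 ^ J := by
    have h5 := hT.bd (j + y) (l + b)
    have h6 := abs_sub (ρ (j + y) (l + b)) z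
    linarith
  have h5 := Int.eq_zero_of_abs_lt_dvd h3 h4
  linarith

/-- `(j, l)` is black. -/
def Black (J : ℕ) (ρ : ℕ → ℕ → ℤ) (j l : ℕ) : Prop := 40 * |ρ j l| ≤ 9 ^ J

/-- The gain. -/
noncomputable def c0 : ℝ := (1 - Real.cos (Real.pi / 40)) / 4

theorem c0_pos : 0 < c0 := by
  have h1 : Real.cos (Real.pi / 40) < 1 := by
    rw [← Real.cos_zero]
    refine Real.cos_lt_cos_of_nonneg_of_le_pi le_rfl ?_ ?_
    · linarith [Real.pi_pos]
    · linarith [Real.pi_pos]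
  rw [c0]
  linarith

theorem c0_lt : c0 < 1 := by
  have h1 : 0 ≤ Real.cos (Real.pi / 40) := by
    refine Real.cos_nonneg_of_mem_Icc ⟨?_, ?_⟩ <;> linarith [Real.pi_pos]
  rw [c0]
  linarith

/-- The weight of a white point. -/
theorem white_w (hT : Tab J ρ) {j l : ℕ} (h : ¬ Black J ρ j l) :
    |Real.cos (Real.pi * ρ j l / 9 ^ J)| ≤ Real.cos (Real.pi / 40) := by
  have hq : (0:ℝ) < 9 ^ J := by positivity
  have h1 : (9:ℝ) ^ J < 40 * |(ρ j l : ℝ)| := by
    have : (9:ℤ) ^ J < 40 * |ρ j l| := not_le.1 h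
    exact_mod_cast this
  have h2 : 2 * |(ρ j l : ℝ)| < 9 ^ J := by exact_mod_cast hT.bd j l
  have h3 : |Real.cos (Real.pi * ρ j l / 9 ^ J)| = |Real.cos (Real.pi * (|(ρ j l : ℝ)| / 9 ^ J))| := by
    rcases abs_cases (ρ j l : ℝ) with ⟨h4, _⟩ | ⟨h4, _⟩
    · rw [h4, mul_div_assoc]
    · rw [h4, mul_div_assoc, ← Real.cos_neg]
      congr 2
      ring
  have h5 : |(ρ j l : ℝ)| / 9 ^ J ≤ 1 / 2 := by
    rw [div_le_iff₀ hq]; linarith
  have h6 : 1 / 40 ≤ |(ρ j l : ℝ)| / 9 ^ J := by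
    rw [le_div_iff₀ hq]; linarith
  have hpi := Real.pi_pos
  rw [h3, abs_of_nonneg]
  · refine Real.cos_le_cos_of_nonneg_of_le_pi (by positivity) ?_ ?_
    · nlinarith
    · nlinarith
  · refine Real.cos_nonneg_of_mem_Icc ⟨?_, ?_⟩
    · have : 0 ≤ Real.pi * (|(ρ j l : ℝ)| / 9 ^ J) := by positivity
      linarith
    · nlinarith

/-- A white candidate gives a gain. -/
theorem stage_white (hT : Tab J ρ) (hB : 3 ≤ B) {K : ℝ} (hK : 0 ≤ K) {m l : ℕ}
    (hw : ¬ Black J ρ (J - (m + 1)) (l + 3))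
    (h : ∀ b, 2 ≤ b → b ≤ B → Q J B ρ m (l + b) ≤ K) : Q J B ρ (m + 1) l ≤ (1 - c0) * K := by
  rw [Q]
  have h1 : ∀ b ∈ Icc 2 B, p b *
      (if b = 3 then |Real.cos (Real.pi * ρ (J - (m + 1)) (l + 3) / 9 ^ J)| else 1) *
        Q J B ρ m (l + b) ≤ (p b - if b = 3 then c0 else 0) * K := by
    intro b hb
    rw [mem_Icc] at hb
    have hp := p_nonneg (b := b) (by omega)
    have hQ := h b hb.1 hb.2
    have hQ0 := Q_nonneg (J := J) (B := B) (ρ := ρ) m (l + b)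
    by_cases h3 : b = 3
    · subst h3
      simp only [if_true]
      have h4 := white_w hT hw
      have h5 : p 3 * |Real.cos (Real.pi * ρ (J - (m + 1)) (l + 3) / 9 ^ J)| ≤ p 3 - c0 := by
        rw [p_three, c0]
        linarith
      refine (mul_le_mul_of_nonneg_right h5 hQ0).trans (mul_le_mul_of_nonneg_left hQ ?_)
      refine le_trans ?_ h5
      positivity
    · simp only [if_neg h3, mul_one, sub_zero]
      exact mul_le_mul_of_nonneg_left hQ hp
  refine (sum_le_sum h1).trans ?_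
  rw [← sum_mul, sum_sub_distrib]
  refine mul_le_mul_of_nonneg_right ?_ hK
  have h2 : ∑ b ∈ Icc 2 B, (if b = 3 then c0 else 0) = c0 := by
    rw [sum_ite_eq' (Icc 2 B) 3 fun _ => c0]
    simp [hB]
  rw [h2]
  linarith [sum_p_Icc (B := B)]

end Pool.Agent.Lib.MP_0a5adf_nt.TAO.H2
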